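import Pool.Agent.Helper29_TOR.If2

/-! TOR, algebraic model: the intersection form of the standard surface. -/

set_option autoImplicit false

namespace Pool.Agent.TOR.H29

open FreeGroup Pool.Agent.TOR.H59

open scoped BigOperators

section ev
variable {α : Type} [DecidableEq α]

/-- exponents -/
def ex : FreeGroup α →* Multiplicative (α → ℤ) :=
  FreeGroup.lift fun a => Multiplicative.ofAdd (Pi.single a 1)

/-- the vector of exponents -/
def ev (x : FreeGroup α) : α → ℤ := Multiplicative.toAdd (ex x)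

theorem ev_mul (x y : FreeGroup α) : ev (x * y) = ev x + ev y := by
  unfold ev; rw [_root_.map_mul]; rfl

theorem ev_inv (x : FreeGroup α) : ev x⁻¹ = - ev x := by
  unfold ev; rw [_root_.map_inv]; rfl

theorem ev_one : ev (1 : FreeGroup α) = 0 := by
  unfold ev; rw [_root_.map_one]; rfl

theorem ev_of (a : α) : ev (FreeGroup.of a) = Pi.single a 1 := by
  unfold ev ex; rw [FreeGroup.lift_apply_of]; rfl

theorem ev_of_ab {x y : FreeGroup α} (h : Abelianization.of x = Abelianization.of y) :
    ev x = ev y := by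
  have h1 : ∀ z : FreeGroup α, Abelianization.lift ex (Abelianization.of z) = ex z := fun z =>
    Abelianization.lift_apply_of _ _
  unfold ev
  rw [← h1 x, ← h1 y, h]

variable [Fintype α]

/-- the inverse of the vector of exponents -/
def bk : Multiplicative (α → ℤ) →* Abelianization (FreeGroup α) where
  toFun u := ∏ i, (Abelianization.of (FreeGroup.of i)) ^ (Multiplicative.toAdd u i)
  map_one' := by
    apply Finset.prod_eq_one
    intro i _
    rw [toAdd_one, Pi.zero_apply, zpow_zero]
  map_mul' u v := by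
    rw [← Finset.prod_mul_distrib]
    refine Finset.prod_congr rfl fun i _ => ?_
    rw [toAdd_mul, Pi.add_apply, zpow_add]

theorem bk_ex (x : FreeGroup α) : bk (ex x) = Abelianization.of x := by
  have h : bk.comp ex = (Abelianization.of : FreeGroup α →* _) := by
    apply FreeGroup.ext_hom
    intro i
    rw [MonoidHom.comp_apply]
    unfold ex
    rw [FreeGroup.lift_apply_of]
    show ∏ j, (Abelianization.of (FreeGroup.of j)) ^ ((Pi.single i 1 : α → ℤ) j) = _
    rw [Finset.prod_eq_single i]
    · rw [Pi.single_eq_same, zpow_one]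
    · intro j _ hj
      rw [Pi.single_eq_of_ne hj, zpow_zero]
    · intro h
      exact absurd (Finset.mem_univ i) h
  exact DFunLike.congr_fun h x

theorem ab_of_ev {x y : FreeGroup α} (h : ev x = ev y) :
    Abelianization.of x = Abelianization.of y := by
  rw [← bk_ex x, ← bk_ex y]
  exact congrArg bk (Multiplicative.toAdd.injective h)

theorem ab_iff_ev {x y : FreeGroup α} : Abelianization.of x = Abelianization.of y ↔ ev x = ev y :=
  ⟨ev_of_ab, ab_of_ev⟩

end ev

/-- the standard symplectic form -/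
def sf {n : ℕ} (u v : Fin 2 × Fin n → ℤ) : ℤ := ∑ j, (u (0, j) * v (1, j) - u (1, j) * v (0, j))

section sf
variable {n : ℕ}

theorem sf_add_left (u u' v : Fin 2 × Fin n → ℤ) : sf (u + u') v = sf u v + sf u' v := by
  unfold sf
  rw [← Finset.sum_add_distrib]
  refine Finset.sum_congr rfl fun j _ => ?_
  simp only [Pi.add_apply]; ring

theorem sf_add_right (u v v' : Fin 2 × Fin n → ℤ) : sf u (v + v') = sf u v + sf u v' := by
  unfold sf
  rw [← Finset.sum_add_distrib]
  refine Finset.sum_congr rfl fun j _ => ?_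
  simp only [Pi.add_apply]; ring

theorem sf_neg_left (u v : Fin 2 × Fin n → ℤ) : sf (-u) v = - sf u v := by
  unfold sf
  rw [← Finset.sum_neg_distrib]
  refine Finset.sum_congr rfl fun j _ => ?_
  simp only [Pi.neg_apply]; ring

theorem sf_neg_right (u v : Fin 2 × Fin n → ℤ) : sf u (-v) = - sf u v := by
  unfold sf
  rw [← Finset.sum_neg_distrib]
  refine Finset.sum_congr rfl fun j _ => ?_
  simp only [Pi.neg_apply]; ring

theorem sf_zero_left (v : Fin 2 × Fin n → ℤ) : sf 0 v = 0 := by
  unfold sf; simp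

theorem sf_zero_right (u : Fin 2 × Fin n → ℤ) : sf u 0 = 0 := by
  unfold sf; simp

theorem sf_smul_left (c : ℤ) (u v : Fin 2 × Fin n → ℤ) : sf (c • u) v = c * sf u v := by
  unfold sf
  rw [Finset.mul_sum]
  refine Finset.sum_congr rfl fun j _ => ?_
  simp only [Pi.smul_apply, smul_eq_mul]; ring

theorem sf_smul_right (c : ℤ) (u v : Fin 2 × Fin n → ℤ) : sf u (c • v) = c * sf u v := by
  unfold sf
  rw [Finset.mul_sum]
  refine Finset.sum_congr rfl fun j _ => ?_
  simp only [Pi.smul_apply, smul_eq_mul]; ring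

theorem sf_swap (u v : Fin 2 × Fin n → ℤ) : sf u v = - sf v u := by
  unfold sf
  rw [← Finset.sum_neg_distrib]
  refine Finset.sum_congr rfl fun j _ => ?_
  ring

theorem sf_self (u : Fin 2 × Fin n → ℤ) : sf u u = 0 := by
  have := sf_swap u u; omega

theorem sf_sub_right (u v v' : Fin 2 × Fin n → ℤ) : sf u (v - v') = sf u v - sf u v' := by
  rw [sub_eq_add_neg, sf_add_right, sf_neg_right]; rfl

theorem sf_sub_left (u u' v : Fin 2 × Fin n → ℤ) : sf (u - u') v = sf u v - sf u' v := by
  rw [sub_eq_add_neg, sf_add_left, sf_neg_left]; rfl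

theorem sf_single_left (a : Fin 2) (i : Fin n) (v : Fin 2 × Fin n → ℤ) :
    sf (Pi.single (a, i) 1) v = if a = 0 then v (1, i) else - v (0, i) := by
  unfold sf
  rw [Finset.sum_eq_single i]
  · fin_cases a
    · simp
    · simp
  · intro j _ hj
    have h0 : ((0 : Fin 2), j) ≠ (a, i) := fun h => hj (congrArg Prod.snd h)
    have h1 : ((1 : Fin 2), j) ≠ (a, i) := fun h => hj (congrArg Prod.snd h)
    rw [Pi.single_eq_of_ne h0, Pi.single_eq_of_ne h1]
    ring
  · intro h; exact absurd (Finset.mem_univ i) h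

end sf

/-- intersection numbers of the letters -/
theorem om_letters {n : ℕ} {i j : ℕ} (hij : i ≠ j) (a b : Fin 2 × Fin n) :
    om (sR n) i j (FreeGroup.of a) (FreeGroup.of b) =
      sf (Pi.single a 1) (Pi.single b 1) := by
  by_cases hab : a = b
  · subst hab
    rw [om_lt_self _ hij, sf_self]
  rw [om_lt _ hij hab]
  obtain ⟨a, s⟩ := a
  obtain ⟨b, t⟩ := b
  rw [sf_single_left]
  by_cases hst : s = t
  · subst hst
    fin_cases a <;> fin_cases b
    · exact absurd rfl hab
    · simp only [sR, rk]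
      simp [iI]
    · simp only [sR, rk]
      simp [iI]
    · exact absurd rfl hab
  · have hst' : (s : ℕ) ≠ (t : ℕ) := fun h => hst (Fin.ext h)
    have h1 : ∀ c : Fin 2, (Pi.single (b, t) 1 : Fin 2 × Fin n → ℤ) (c, s) = 0 := fun c =>
      Pi.single_eq_of_ne (fun h => hst (congrArg Prod.snd h)) _
    rw [h1, h1, neg_zero, ite_self]
    simp only [sR, rk]
    rcases lt_or_gt_of_ne hst' with h | h
    · rw [iI_true, iI_true, iI_true, iI_true]
      · rfl
      all_goals (split_ifs <;> omega)
    · rw [iI_false, iI_false, iI_false, iI_false]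
      · rfl
      all_goals (split_ifs <;> omega)

/-- THE INTERSECTION FORM of the standard surface, by counting crossings -/
theorem om_std {n : ℕ} {i j : ℕ} (hij : i ≠ j) (k m : FreeGroup (Fin 2 × Fin n)) :
    om (sR n) i j k m = sf (ev k) (ev m) := by
  induction k using FreeGroup.induction_on with
  | C1 => rw [om_one_left _ hij, ev_one, sf_zero_left]
  | of a =>
    induction m using FreeGroup.induction_on with
    | C1 => rw [om_one_right, ev_one, sf_zero_right]
    | of b => rw [om_letters hij, ev_of, ev_of]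
    | inv_of b h => rw [om_inv_right, ev_inv, sf_neg_right, h]
    | mul x y hx hy => rw [om_mul_right, ev_mul, sf_add_right, hx, hy]
  | inv_of a h => rw [om_inv_left _ hij, ev_inv, sf_neg_left, h]
  | mul x y hx hy => rw [om_mul_left _ hij, ev_mul, sf_add_left, hx, hy]

section main
variable {n : ℕ}

/-- the automorphisms which fix the boundary preserve the intersection form -/
theorem sf_ap (hn : 0 < n) (φ : MulAut (FreeGroup (Fin 2 × Fin n))) (hφ : φ (zeta n) = zeta n)
    (k m : FreeGroup (Fin 2 × Fin n)) : sf (ev (φ k)) (ev (φ m)) = sf (ev k) (ev m) := by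
  rw [← om_std (i := 0) (j := 1) (by decide), ← om_std (i := 0) (j := 1) (by decide)]
  rw [← mk_sZ] at hφ
  exact om_ap (sR n) (bd_std n) (all_std n) (zeta_ne_one hn) φ hφ 0 1 k m

/-- compatible arcs at different gaps have intersection number zero -/
theorem sf_cmp {i j : ℕ} (hij : i ≠ j) {k m : FreeGroup (Fin 2 × Fin n)}
    (h : Cmp (sR n) i k j m) : sf (ev k) (ev m) = 0 := by
  rw [← om_std hij, om_cmp _ hij h]

/-- compatible arcs at one gap -/
theorem sf_germ {i : ℕ} {k m : FreeGroup (Fin 2 × Fin n)} (hk : k ≠ 1) (hm : m ≠ 1)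
    (hkm : k ≠ m) (hkm' : k ≠ m⁻¹) (hc : Cmp (sR n) i k i m) :
    sf (ev k) (ev m) = iI (key (sR n) k⁻¹ < key (sR n) m) + iI (key (sR n) k < key (sR n) m⁻¹) -
      iI (key (sR n) k < key (sR n) m) - iI (key (sR n) k⁻¹ < key (sR n) m⁻¹) := by
  rw [← om_std (i := 0) (j := 1) (by decide)]
  exact om_germ _ (by decide) hk hm hkm hkm' (cmp_same hc)

/-- handles -/
theorem sf_hnd {k l : FreeGroup (Fin 2 × Fin n)} (h : Hnd (sR n) k l) : sf (ev k) (ev l) = 1 := by
  obtain ⟨h1, h2, h3, h4, h5, h6⟩ := h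
  have hk : k ≠ 1 := h1.1
  have hl : l ≠ 1 := fun e => h2.1 (by rw [e, inv_one])
  have hkl : k ≠ l := by
    rintro rfl; exact lt_irrefl _ (h4.trans (h5.trans h6))
  have hkl' : k ≠ l⁻¹ := by
    rintro rfl; exact lt_irrefl _ h4
  rw [sf_germ hk hl hkl hkl' h3, iI_true h6, iI_true h4, iI_true (h4.trans (h5.trans h6)),
    iI_false (lt_asymm h5)]
  rfl

/-- two compatible arcs at one gap with intersection number different from zero form a handle -/
theorem hnd_of_sf {i : ℕ} {k m : FreeGroup (Fin 2 × Fin n)} (hk : Arc (sR n) k)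
    (hm : Arc (sR n) m) (hc : Cmp (sR n) i k i m) (h : sf (ev k) (ev m) ≠ 0) :
    Hnd (sR n) k m⁻¹ ∨ Hnd (sR n) m k⁻¹ := by
  have hkm : k ≠ m := by
    rintro rfl; exact h (sf_self _)
  have hkm' : k ≠ m⁻¹ := by
    rintro rfl
    apply h
    rw [ev_inv, sf_neg_left, sf_self, neg_zero]
  have e := sf_germ hk.1 hm.1 hkm hkm' hc
  have n1 : key (sR n) k ≠ key (sR n) m := fun h => hkm (key_inj _ h)
  have n2 : key (sR n) k ≠ key (sR n) m⁻¹ := fun h => hkm' (key_inj _ h)
  have n3 : key (sR n) k⁻¹ ≠ key (sR n) m := fun h => hkm' (by rw [← key_inj _ h, inv_inv])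
  have n4 : key (sR n) k⁻¹ ≠ key (sR n) m⁻¹ := fun h => hkm (inv_injective (key_inj _ h))
  have hk2 := hk.2.1
  have hm2 := hm.2.1
  have c0 : Cmp (sR n) 0 k 0 m := cmp_same hc
  rcases lt_or_gt_of_ne n1 with h1 | h1
  · -- k < m
    rcases lt_or_gt_of_ne n3 with h3 | h3
    · -- k⁻¹ < m
      exfalso; apply h
      rw [e, iI_true h3, iI_true (h1.trans hm2), iI_true h1, iI_true (h3.trans hm2)]; rfl
    · rcases lt_or_gt_of_ne n4 with h4 | h4
      · left
        refine ⟨hk, by rwa [inv_inv], c0.inv_right, ?_, ?_, h4⟩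
        · rwa [inv_inv]
        · rwa [inv_inv]
      · exfalso; apply h
        rw [e, iI_false (lt_asymm h3), iI_true (h1.trans hm2), iI_true h1, iI_false (lt_asymm h4)]
        rfl
  · -- m < k
    rcases lt_or_gt_of_ne n2 with h2 | h2
    · rcases lt_or_gt_of_ne n4 with h4 | h4
      · exfalso; apply h
        rw [e, iI_false (lt_asymm (h1.trans hk2)), iI_true h2, iI_false (lt_asymm h1), iI_true h4]
        rfl
      · right
        refine ⟨hm, by rwa [inv_inv], c0.symm.inv_right, ?_, ?_, h4⟩
        · rwa [inv_inv]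
        · rwa [inv_inv]
    · exfalso; apply h
      rw [e, iI_false (lt_asymm (h1.trans hk2)), iI_false (lt_asymm h2), iI_false (lt_asymm h1),
        iI_false (lt_asymm (h2.trans hk2))]
      rfl

theorem sf_hnd_iff {i : ℕ} {k m : FreeGroup (Fin 2 × Fin n)} (hk : Arc (sR n) k)
    (hm : Arc (sR n) m) (hc : Cmp (sR n) i k i m) :
    sf (ev k) (ev m) ≠ 0 ↔ (Hnd (sR n) k m⁻¹ ∨ Hnd (sR n) m k⁻¹) := by
  refine ⟨hnd_of_sf hk hm hc, ?_⟩
  rintro (h | h)
  · have := sf_hnd h
    rw [ev_inv, sf_neg_right] at this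
    omega
  · have := sf_hnd h
    rw [ev_inv, sf_neg_right, sf_swap] at this
    omega

end main

end Pool.Agent.TOR.H29
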