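import Pool.Agent.Helper29_TOR.Pent

/-! TOR, algebraic model: the boundary arc of a handle is compatible with the arcs outside the
handle; compatibility at several gaps gives compatibility at one gap. -/

set_option autoImplicit false

namespace Pool.Agent.TOR.H29

open FreeGroup Pool.Agent.TOR.H59

variable {α : Type} [DecidableEq α]

/-- the boundary of the handle `k, l` -/
def bc (k l : FreeGroup α) : FreeGroup α := k * l * k⁻¹ * l⁻¹

omit [DecidableEq α] in
theorem bc_inv (k l : FreeGroup α) : (bc k l)⁻¹ = l * k * l⁻¹ * k⁻¹ := by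
  unfold bc; group

/-- the germ `u` is not inside the handle -/
def GG (R : Rib α) (k l u : FreeGroup α) : Prop :=
  key R u ≤ key R k ∨ key R u = key R l⁻¹ ∨ key R u = key R k⁻¹ ∨ key R l ≤ key R u

/-- the germ `u` is strictly outside the handle -/
def SO (R : Rib α) (k l u : FreeGroup α) : Prop := key R u < key R k ∨ key R l < key R u

theorem SO.gg {R : Rib α} {k l u : FreeGroup α} (h : SO R k l u) : GG R k l u := by
  rcases h with h | h
  · exact Or.inl h.le
  · exact Or.inr (Or.inr (Or.inr h.le))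

theorem bc_ne_one {R : Rib α} {k l : FreeGroup α} (h : Hnd R k l) : bc k l ≠ 1 := by
  intro e
  have := (pent h).o0
  unfold bc at e
  rw [e] at this
  exact lt_irrefl _ this

theorem key_bc_lt {R : Rib α} {k l : FreeGroup α} (h : Hnd R k l) :
    key R (bc k l) < key R k := by
  have p := pent h
  exact p.o1.trans (p.o2.trans p.o3)

theorem key_lt_bc_inv {R : Rib α} {k l : FreeGroup α} (h : Hnd R k l) :
    key R l < key R (bc k l)⁻¹ := by
  have p := pent h
  rw [bc_inv]
  exact p.o13.trans (p.o14.trans p.o15)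

theorem key_k_lt_l {R : Rib α} {k l : FreeGroup α} (h : Hnd R k l) : key R k < key R l :=
  h.2.2.2.1.trans (h.2.2.2.2.1.trans h.2.2.2.2.2)

theorem key_bc_lt_inv {R : Rib α} {k l : FreeGroup α} (h : Hnd R k l) :
    key R (bc k l) < key R (bc k l)⁻¹ :=
  (key_bc_lt h).trans ((key_k_lt_l h).trans (key_lt_bc_inv h))

theorem cmp_bc_aux {R : Rib α} {k l m : FreeGroup α} (h : Hnd R k l) (hmk : Cmp R 0 m 0 k)
    (hml : Cmp R 0 m 0 l) (hm : GG R k l m) (g : FreeGroup α)
    (h1 : Cyc (key R 1) (key R g) (key R (l * k * l⁻¹ * k⁻¹)))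
    (h2 : Cyc (key R (l * k * l⁻¹ * k⁻¹)) (key R (g * m)) (key R 1)) : False := by
  have p := pent h
  have q0 := p.o0
  have q1 := p.o1
  have q2 := p.o2
  have q3 := p.o3
  have q4 := p.o4
  have q5 := p.o5
  have q6 := p.o6
  have q7 := p.o7
  have q8 := p.o8
  have q9 := p.o9
  have q10 := p.o10
  have q11 := p.o11
  have q12 := p.o12
  have q13 := p.o13
  have q14 := p.o14
  have q15 := p.o15
  by_cases e1 : g = l
  · have t := (tr (R := R) l⁻¹ _ _ _).2 h2
    have t2 : Cyc (key R (k * l⁻¹ * k⁻¹)) (key R m) (key R l⁻¹) := by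
      rw [e1] at t
      have a1 : l⁻¹ * (l * k * l⁻¹ * k⁻¹) = k * l⁻¹ * k⁻¹ := by group
      have a2 : l⁻¹ * (l * m) = m := by group
      rw [a1, a2, mul_one] at t
      exact t
    unfold GG at hm
    clear t h1 h2 q0 q1 q2 q3 q13 q14 q15
    generalize key R m = m' at *
    unfold Cyc at *
    rcases t2 with t2 | t2 | t2
    · rcases hm with hm | hm | hm | hm
      · exact absurd (hm.trans_lt (q4.trans (q5.trans t2.1))) (lt_irrefl _)
      · rw [hm] at t2; exact lt_irrefl _ t2.2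
      · rw [hm] at t2; exact lt_asymm t2.2 (q7.trans (q8.trans q9))
      · exact absurd (hm.trans_lt (t2.2.trans (q7.trans (q8.trans (q9.trans
          (q10.trans (q11.trans q12))))))) (lt_irrefl _)
    · exact lt_asymm t2.2 q6
    · exact lt_asymm t2.1 q6
  by_cases e2 : g = l * k
  · have t := (tr (R := R) (l * k)⁻¹ _ _ _).2 h2
    have t2 : Cyc (key R (l⁻¹ * k⁻¹)) (key R m) (key R (k⁻¹ * l⁻¹)) := by
      rw [e2] at t
      have a1 : (l * k)⁻¹ * (l * k * l⁻¹ * k⁻¹) = l⁻¹ * k⁻¹ := by group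
      have a2 : (l * k)⁻¹ * (l * k * m) = m := by group
      have a3 : (l * k)⁻¹ * 1 = k⁻¹ * l⁻¹ := by group
      rw [a1, a2, a3] at t
      exact t
    unfold GG at hm
    rcases t2 with t2 | t2 | t2
    · rcases hm with hm | hm | hm | hm
      · exact absurd (hm.trans_lt (q4.trans (q5.trans (q6.trans (q7.trans t2.1))))) (lt_irrefl _)
      · rw [hm] at t2; exact lt_asymm t2.1 q7
      · rw [hm] at t2; exact lt_asymm t2.2 q9
      · exact absurd (hm.trans_lt (t2.2.trans (q9.trans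
          (q10.trans (q11.trans q12))))) (lt_irrefl _)
    · exact lt_asymm t2.2 q8
    · exact lt_asymm t2.1 q8
  by_cases e3 : g = l * k * l⁻¹
  · have t := (tr (R := R) (l * k * l⁻¹)⁻¹ _ _ _).2 h2
    have t2 : Cyc (key R k⁻¹) (key R m) (key R (l * k⁻¹ * l⁻¹)) := by
      rw [e3] at t
      have a1 : (l * k * l⁻¹)⁻¹ * (l * k * l⁻¹ * k⁻¹) = k⁻¹ := by group
      have a2 : (l * k * l⁻¹)⁻¹ * (l * k * l⁻¹ * m) = m := by group
      have a3 : (l * k * l⁻¹)⁻¹ * 1 = l * k⁻¹ * l⁻¹ := by group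
      rw [a1, a2, a3] at t
      exact t
    unfold GG at hm
    rcases t2 with t2 | t2 | t2
    · rcases hm with hm | hm | hm | hm
      · exact absurd (hm.trans_lt (q4.trans (q5.trans (q6.trans (q7.trans (q8.trans
          (q9.trans t2.1))))))) (lt_irrefl _)
      · rw [hm] at t2; exact lt_asymm t2.1 (q7.trans (q8.trans q9))
      · rw [hm] at t2; exact lt_irrefl _ t2.1
      · exact absurd (hm.trans_lt (t2.2.trans (q11.trans q12))) (lt_irrefl _)
    · exact lt_asymm t2.2 q10
    · exact lt_asymm t2.1 q10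
  have k1 := key_ne (R := R) e1
  have k2 := key_ne (R := R) e2
  have k3 := key_ne (R := R) e3
  have N1 := ncr hml g 1
  have N2 := ncr hmk g l
  have N3 := ncr hml g (l * k * l⁻¹)
  have N4 := ncr hmk g (l * k * l⁻¹ * k⁻¹)
  simp only [one_mul, inv_mul_cancel_right] at N1 N2 N3 N4
  have z : key R 1 < key R l := q0.trans (q1.trans (q2.trans (q3.trans (key_k_lt_l h))))
  clear q0 q1 q2 q3 q4 q5 q6 q7 q8 q9 q10 q11 q12 hmk hml h p hm e1 e2 e3
  unfold Lk Cyc at *
  grind

/-- arcs which are compatible with `k` and `l` and whose germs are not inside the handle are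
compatible with the boundary of the handle -/
theorem cmp_bc {R : Rib α} {k l m : FreeGroup α} (h : Hnd R k l) (hmk : Cmp R 0 m 0 k)
    (hml : Cmp R 0 m 0 l) (hm : GG R k l m) (hm' : GG R k l m⁻¹) : Cmp R 0 m 0 (bc k l) := by
  rw [← cmp_inv_right, bc_inv, cmp_comm]
  apply cmp_of_ncr
  intro g hg
  rcases hg with ⟨a, b⟩ | ⟨a, b⟩
  · exact cmp_bc_aux h hmk hml hm g a b
  · refine cmp_bc_aux h hmk.inv_left hml.inv_left hm' (g * m) a ?_
    rw [mul_inv_cancel_right]
    exact b

theorem cmp_bc_k {R : Rib α} {k l : FreeGroup α} (h : Hnd R k l) : Cmp R 0 (bc k l) 0 k :=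
  (cmp_bc h h.1.2.2 h.2.2.1 (Or.inl le_rfl) (Or.inr (Or.inr (Or.inl rfl)))).symm

theorem cmp_ll {R : Rib α} {k l : FreeGroup α} (h : Hnd R k l) : Cmp R 0 l 0 l := by
  have := h.2.1.2.2
  rwa [cmp_inv_left, cmp_inv_right] at this

theorem cmp_bc_l {R : Rib α} {k l : FreeGroup α} (h : Hnd R k l) : Cmp R 0 (bc k l) 0 l :=
  (cmp_bc h h.2.2.1.symm (cmp_ll h) (Or.inr (Or.inr (Or.inr le_rfl)))
    (Or.inr (Or.inl rfl))).symm

theorem so_bc {R : Rib α} {k l : FreeGroup α} (h : Hnd R k l) : SO R k l (bc k l) :=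
  Or.inl (key_bc_lt h)

theorem so_bc_inv {R : Rib α} {k l : FreeGroup α} (h : Hnd R k l) : SO R k l (bc k l)⁻¹ :=
  Or.inr (key_lt_bc_inv h)

/-- the boundary of a handle is an arc -/
theorem arc_bc {R : Rib α} {k l : FreeGroup α} (h : Hnd R k l) : Arc R (bc k l) :=
  ⟨bc_ne_one h, key_bc_lt_inv h,
    cmp_bc h (cmp_bc_k h) (cmp_bc_l h) (so_bc h).gg (so_bc_inv h).gg⟩

/-- germs of other arcs are not between the boundary and the handle -/
theorem so_of_bc {R : Rib α} {k l m : FreeGroup α} (h : Hnd R k l) (hmk : Cmp R 0 m 0 k)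
    (hml : Cmp R 0 m 0 l) (hm : SO R k l m) (hm' : SO R k l m⁻¹) (e1 : m ≠ bc k l)
    (e2 : m ≠ (bc k l)⁻¹) : key R m < key R (bc k l) ∨ key R (bc k l)⁻¹ < key R m := by
  have p := pent h
  have q0 := p.o0
  have q1 := p.o1
  have q2 := p.o2
  have q3 := p.o3
  have q4 := p.o4
  have q5 := p.o5
  have q6 := p.o6
  have q7 := p.o7
  have q8 := p.o8
  have q9 := p.o9
  have q10 := p.o10
  have q11 := p.o11
  have q12 := p.o12
  have q13 := p.o13
  have q14 := p.o14
  have q15 := p.o15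
  rw [bc_inv] at *
  unfold bc at *
  have k1 := key_ne (R := R) e1
  have k2 := key_ne (R := R) e2
  -- the four diagonals
  have f1 : m ≠ k * l * k⁻¹ := by
    rintro rfl
    have e : (k * l * k⁻¹)⁻¹ = k * l⁻¹ * k⁻¹ := by group
    rw [e] at hm'
    rcases hm' with h' | h'
    · exact lt_asymm h' (q4.trans q5)
    · exact lt_asymm h' (q6.trans (q7.trans (q8.trans (q9.trans (q10.trans (q11.trans q12))))))
  have f2 : m ≠ k * l := by
    rintro rfl
    have e : (k * l)⁻¹ = l⁻¹ * k⁻¹ := by group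
    rw [e] at hm'
    rcases hm' with h' | h'
    · exact lt_asymm h' (q4.trans (q5.trans (q6.trans q7)))
    · exact lt_asymm h' (q8.trans (q9.trans (q10.trans (q11.trans q12))))
  have f3 : m ≠ l * k := by
    rintro rfl
    have e : (l * k)⁻¹ = k⁻¹ * l⁻¹ := by group
    rw [e] at hm'
    rcases hm' with h' | h'
    · exact lt_asymm h' (q4.trans (q5.trans (q6.trans (q7.trans q8))))
    · exact lt_asymm h' (q9.trans (q10.trans (q11.trans q12)))
  have f4 : m ≠ l * k * l⁻¹ := by
    rintro rfl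
    have e : (l * k * l⁻¹)⁻¹ = l * k⁻¹ * l⁻¹ := by group
    rw [e] at hm'
    rcases hm' with h' | h'
    · exact lt_asymm h' (q4.trans (q5.trans (q6.trans (q7.trans (q8.trans (q9.trans q10))))))
    · exact lt_asymm h' (q11.trans q12)
  have g1 := key_ne (R := R) f1
  have g2 := key_ne (R := R) f2
  have g3 := key_ne (R := R) f3
  have g4 := key_ne (R := R) f4
  have N1 := ncr hml 1 (k * l * k⁻¹ * l⁻¹)
  have N2 := ncr hmk 1 (k * l * k⁻¹)
  have N3 := ncr hml 1 k
  have N4 := ncr hmk 1 l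
  have N5 := ncr hml 1 (l * k * l⁻¹)
  have N6 := ncr hmk 1 (l * k * l⁻¹ * k⁻¹)
  simp only [one_mul, inv_mul_cancel_right] at N1 N2 N3 N4 N5 N6
  have z := key_k_lt_l h
  clear q4 q5 q6 q7 q8 q9 q10 q11 q12 hmk hml h p hm' e1 e2 f1 f2 f3 f4
  unfold SO at hm
  by_contra hcon
  rw [not_or, not_lt, not_lt] at hcon
  rcases hm with hm | hm
  · clear N4 N5 N6
    unfold Lk Cyc at *
    grind
  · clear N1 N2 N3
    unfold Lk Cyc at *
    grind

/-! ### several gaps -/

/-- compatibility does not become weaker at one gap -/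
theorem cmp_zero {R : Rib α} {i j : ℕ} {k m : FreeGroup α} (h : Cmp R i k j m) : Cmp R 0 k 0 m := by
  intro g hg
  by_cases hij : i = j
  · subst hij
    exact cmp_same h g hg
  -- four different points
  have hk : k ≠ 1 := by
    rintro rfl
    rcases hg with ⟨h1, _⟩ | ⟨h1, _⟩
    · exact h1.ne31 rfl
    · exact h1.ne31 rfl
  have hd : g ≠ 1 ∧ g ≠ k ∧ g * m ≠ 1 ∧ g * m ≠ k := by
    refine ⟨?_, ?_, ?_, ?_⟩ <;> intro h' <;> rw [h'] at hg
    · exact not_lk_self _ _ _ hg
    · rw [lo_swap] at hg; exact not_lk_self _ _ _ hg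
    · rw [lo_swap'] at hg; exact not_lk_self _ _ _ hg
    · rw [lo_swap, lo_swap'] at hg; exact not_lk_self _ _ _ hg
  obtain ⟨h1, h2, h3, h4⟩ := hd
  have ne : ∀ {i j : ℕ} {p q r : FreeGroup α}, q ≠ p → q ≠ r → p ≠ r →
      (co R (p, i) (q, j) (r, i) ↔ cy R p q r) := by
    intro i j p q r a b c
    rw [co_iff]
    have e1 : ¬ p = q := fun h => a h.symm
    have e3 : ¬ r = p := fun h => c h.symm
    simp only [e1, b, e3, false_and, or_false]
  apply h g
  rcases hg with ⟨h5, h6⟩ | ⟨h5, h6⟩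
  · refine Or.inl ⟨?_, ?_⟩
    · have e : co R (1, 0) (g, 0) (k, 0) := h5
      have e2 : co R (1, i) (g, j) (k, i) := by
        rw [ne h1 h2 hk.symm] at e ⊢; exact e
      exact e2
    · have e : co R (k, 0) (g * m, 0) (1, 0) := h6
      have e2 : co R (k, i) (g * m, j) (1, i) := by
        rw [ne h4 h3 hk] at e ⊢; exact e
      exact e2
  · refine Or.inr ⟨?_, ?_⟩
    · have e : co R (1, 0) (g * m, 0) (k, 0) := h5
      have e2 : co R (1, i) (g * m, j) (k, i) := by
        rw [ne h3 h4 hk.symm] at e ⊢; exact e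
      exact e2
    · have e : co R (k, 0) (g, 0) (1, 0) := h6
      have e2 : co R (k, i) (g, j) (1, i) := by
        rw [ne h2 h1 hk] at e ⊢; exact e
      exact e2

/-- germs at the gaps `i < j` -/
theorem germ_lt {R : Rib α} {i j : ℕ} (hij : i < j) {k m : FreeGroup α} (h : Cmp R i k j m)
    (hm : m ≠ 1) : key R k < key R m := by
  by_contra hcon
  rw [not_lt] at hcon
  have hk : k ≠ 1 := by
    rintro rfl
    exact absurd (key_one_lt R hm) (not_lt.2 hcon)
  apply h 1
  rw [one_mul]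
  have o1 : okey R ((1 : FreeGroup α), j) < okey R (1, i) := by
    rw [okey_lt]; exact Or.inr ⟨rfl, hij⟩
  have o2 : okey R ((1 : FreeGroup α), i) < okey R (m, j) := by
    rw [okey_lt]; exact Or.inl (key_one_lt R hm)
  have o3 : okey R (m, j) < okey R (k, i) := by
    rw [okey_lt]
    rcases lt_or_eq_of_le hcon with h1 | h1
    · exact Or.inl h1
    · exact Or.inr ⟨key_inj R h1, hij⟩
  exact Or.inr ⟨Or.inl ⟨o2, o3⟩, Or.inr (Or.inl ⟨o1, o2.trans o3⟩)⟩

theorem germs_lt {R : Rib α} {i j : ℕ} (hij : i < j) {k m : FreeGroup α} (h : Cmp R i k j m)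
    (hm : m ≠ 1) : key R k < key R m ∧ key R k < key R m⁻¹ ∧ key R k⁻¹ < key R m ∧
      key R k⁻¹ < key R m⁻¹ := by
  have hm' : m⁻¹ ≠ 1 := by simpa using hm
  exact ⟨germ_lt hij h hm, germ_lt hij h.inv_right hm', germ_lt hij h.inv_left hm,
    germ_lt hij h.inv_left.inv_right hm'⟩

/-- conversely, compatibility at one gap and the order of the germs -/
theorem cmp_of_germs {R : Rib α} {i j : ℕ} (hij : i < j) {k m : FreeGroup α} (hk : k ≠ 1)
    (h : Cmp R 0 k 0 m) (h1 : key R k < key R m) (h2 : key R k < key R m⁻¹)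
    (h3 : key R k⁻¹ < key R m) (h4 : key R k⁻¹ < key R m⁻¹) : Cmp R i k j m := by
  have hm : m ≠ 1 := by
    rintro rfl
    exact absurd (key_one_lt R hk) (lt_asymm h1)
  have hk' : k⁻¹ ≠ 1 := by simpa using hk
  have hm' : m⁻¹ ≠ 1 := by simpa using hm
  have zk := key_one_lt R hk
  have zk' := key_one_lt R hk'
  have zm := key_one_lt R hm
  have zm' := key_one_lt R hm'
  -- two chords with a common vertex, moved to the vertex `1`
  have base : ∀ {p q : FreeGroup α}, p ≠ 1 → q ≠ 1 → key R p < key R q →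
      ¬ Lo R (1, i) (p, i) (1, j) (q, j) := by
    intro p q hp hq hpq hl
    have o1 : okey R ((1 : FreeGroup α), j) < okey R (1, i) := by
      rw [okey_lt]; exact Or.inr ⟨rfl, hij⟩
    have o2 : okey R ((1 : FreeGroup α), i) < okey R (p, i) := by
      rw [okey_lt]; exact Or.inl (key_one_lt R hp)
    have o3 : okey R (p, i) < okey R (q, j) := by
      rw [okey_lt]; exact Or.inl hpq
    unfold Lo Lk Cyc at hl
    grind
  intro g hg
  by_cases e1 : g = 1
  · subst e1
    rw [one_mul] at hg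
    exact base hk hm h1 hg
  by_cases e2 : g = k
  · subst e2
    have := (lo_mv R g⁻¹ (1, i) (g, i) (g, j) (g * m, j)).2 hg
    simp only [mv_mk, mul_one, inv_mul_cancel, inv_mul_cancel_left] at this
    rw [lo_swap] at this
    exact base hk' hm h3 this
  by_cases e3 : g * m = 1
  · have e3' : g = m⁻¹ := eq_inv_of_mul_eq_one_left e3
    subst e3'
    rw [inv_mul_cancel, lo_swap'] at hg
    exact base hk hm' h2 hg
  by_cases e4 : g * m = k
  · have e4' : g = k * m⁻¹ := eq_mul_inv_of_mul_eq e4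
    have := (lo_mv R k⁻¹ (1, i) (k, i) (g, j) (g * m, j)).2 hg
    rw [e4] at this
    simp only [mv_mk, mul_one, inv_mul_cancel] at this
    rw [e4', inv_mul_cancel_left, lo_swap, lo_swap'] at this
    exact base hk' hm' h4 this
  have ne : ∀ {i j : ℕ} {p q r : FreeGroup α}, q ≠ p → q ≠ r → p ≠ r →
      (co R (p, i) (q, j) (r, i) ↔ cy R p q r) := by
    intro i j p q r a b c
    rw [co_iff]
    have e1 : ¬ p = q := fun h => a h.symm
    have e3 : ¬ r = p := fun h => c h.symm
    simp only [e1, b, e3, false_and, or_false]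
  apply h g
  rcases hg with ⟨h5, h6⟩ | ⟨h5, h6⟩
  · refine Or.inl ⟨?_, ?_⟩
    · have e : co R (1, i) (g, j) (k, i) := h5
      have e2 : co R (1, 0) (g, 0) (k, 0) := by
        rw [ne e1 e2 hk.symm] at e ⊢; exact e
      exact e2
    · have e : co R (k, i) (g * m, j) (1, i) := h6
      have e2 : co R (k, 0) (g * m, 0) (1, 0) := by
        rw [ne e4 e3 hk] at e ⊢; exact e
      exact e2
  · refine Or.inr ⟨?_, ?_⟩
    · have e : co R (1, i) (g * m, j) (k, i) := h5
      have e2 : co R (1, 0) (g * m, 0) (k, 0) := by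
        rw [ne e3 e4 hk.symm] at e ⊢; exact e
      exact e2
    · have e : co R (k, i) (g, j) (1, i) := h6
      have e2 : co R (k, 0) (g, 0) (1, 0) := by
        rw [ne e2 e1 hk] at e ⊢; exact e
      exact e2

end Pool.Agent.TOR.H29
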