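import Pool.Agent.Helper29_TOR.Fi4

/-! TOR, part (a): the action of the automorphisms of the free group on the lattice; extension of
invariance from a subgroup of finite index. -/

set_option autoImplicit false

namespace Pool.Agent.TOR.FI

open Pool.Agent.TOR.H29 Pool.Agent.TOR.H59

open scoped BigOperators

variable {n : ℕ}

/-- the action on the exponents, linear map -/
def abl (φ : MulAut (FreeGroup (Fin 2 × Fin n))) : HH n →ₗ[ℤ] HH n where
  toFun x := ∑ a, x a • ev (φ (FreeGroup.of a))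
  map_add' x y := by
    rw [← Finset.sum_add_distrib]
    exact Finset.sum_congr rfl fun a _ => by rw [Pi.add_apply, add_smul]
  map_smul' c x := by
    rw [Finset.smul_sum]
    exact Finset.sum_congr rfl fun a _ => by rw [Pi.smul_apply, smul_assoc, RingHom.id_apply]

theorem abl_bv (φ : MulAut (FreeGroup (Fin 2 × Fin n))) (a : Fin 2 × Fin n) :
    abl φ (bv a) = ev (φ (FreeGroup.of a)) := by
  show ∑ b, (bv a : HH n) b • ev (φ (FreeGroup.of b)) = _
  rw [Finset.sum_eq_single a]
  · rw [bv_same, one_smul]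
  · intro b _ hb
    rw [bv_ne hb, zero_smul]
  · intro h; exact absurd (Finset.mem_univ a) h

theorem abl_ev (φ : MulAut (FreeGroup (Fin 2 × Fin n))) (x : FreeGroup (Fin 2 × Fin n)) :
    abl φ (ev x) = ev (φ x) := by
  induction x using FreeGroup.induction_on with
  | C1 => rw [_root_.map_one, ev_one, map_zero]
  | of a => rw [ev_of]; exact abl_bv φ a
  | inv_of a h => rw [_root_.map_inv, ev_inv, ev_inv, map_neg, h]
  | mul x y hx hy => rw [_root_.map_mul, ev_mul, ev_mul, map_add, hx, hy]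

theorem abl_ext {f g : HH n →ₗ[ℤ] HH n} (h : ∀ a, f (bv a) = g (bv a)) : f = g := by
  apply LinearMap.ext; intro x
  have hx : x = ∑ a, x a • bv a := by
    funext b
    rw [Finset.sum_apply, Finset.sum_eq_single b]
    · rw [Pi.smul_apply, bv_same, smul_eq_mul, mul_one]
    · intro a _ hab
      rw [Pi.smul_apply, bv_ne hab.symm, smul_zero]
    · intro h; exact absurd (Finset.mem_univ b) h
  rw [hx, map_sum, map_sum]
  exact Finset.sum_congr rfl fun a _ => by rw [map_smul, map_smul, h]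

theorem abl_mul (φ ψ : MulAut (FreeGroup (Fin 2 × Fin n))) : abl (φ * ψ) = abl φ ∘ₗ abl ψ := by
  apply abl_ext; intro a
  rw [LinearMap.comp_apply, abl_bv, abl_bv, abl_ev]
  rfl

theorem abl_one : abl (1 : MulAut (FreeGroup (Fin 2 × Fin n))) = LinearMap.id := by
  apply abl_ext; intro a
  rw [abl_bv]
  exact ev_of a

/-- the action on the lattice -/
def abA : MulAut (FreeGroup (Fin 2 × Fin n)) →* AA n where
  toFun φ := LinearEquiv.ofLinear (abl φ) (abl φ⁻¹)
    (by rw [← abl_mul, mul_inv_cancel, abl_one]) (by rw [← abl_mul, inv_mul_cancel, abl_one])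
  map_one' := by
    apply aa_ext; intro x
    show abl 1 x = x
    rw [abl_one]; rfl
  map_mul' φ ψ := by
    apply aa_ext; intro x
    show abl (φ * ψ) x = abl φ (abl ψ x)
    rw [abl_mul]; rfl

theorem abA_ev (φ : MulAut (FreeGroup (Fin 2 × Fin n))) (x : FreeGroup (Fin 2 × Fin n)) :
    abA φ (ev x) = ev (φ x) := abl_ev φ x

theorem abA_bv (φ : MulAut (FreeGroup (Fin 2 × Fin n))) (a : Fin 2 × Fin n) :
    abA φ (bv a) = ev (φ (FreeGroup.of a)) := abl_bv φ a

theorem ev_of_bv (a : Fin 2 × Fin n) : ev (FreeGroup.of a) = bv a := ev_of a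

/-- every vector is the class of an element -/
theorem ev_surj (x : HH n) : ∃ g : FreeGroup (Fin 2 × Fin n), ev g = x := by
  classical
  have key : ∀ s : Finset (Fin 2 × Fin n), ∃ g : FreeGroup (Fin 2 × Fin n),
      ev g = ∑ a ∈ s, x a • bv a := by
    intro s
    induction s using Finset.induction_on with
    | empty => exact ⟨1, by rw [ev_one]; simp⟩
    | insert a s ha ih =>
      obtain ⟨g, hg⟩ := ih
      refine ⟨FreeGroup.of a ^ x a * g, ?_⟩
      rw [ev_mul, Finset.sum_insert ha, hg]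
      congr 1
      have : ∀ k : ℤ, ev ((FreeGroup.of a : FreeGroup (Fin 2 × Fin n)) ^ k) = k • bv a := by
        intro k
        unfold ev
        rw [map_zpow, toAdd_zpow]
        congr 1
        exact ev_of a
      exact this _
  obtain ⟨g, hg⟩ := key Finset.univ
  refine ⟨g, hg.trans ?_⟩
  funext b
  rw [Finset.sum_apply, Finset.sum_eq_single b]
  · rw [Pi.smul_apply, bv_same, smul_eq_mul, mul_one]
  · intro a _ hab
    rw [Pi.smul_apply, bv_ne hab.symm, smul_zero]
  · intro h; exact absurd (Finset.mem_univ b) h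

/-- the automorphisms which fix the boundary act symplectically -/
theorem abA_mem (hn : 0 < n) {φ : MulAut (FreeGroup (Fin 2 × Fin n))} (hφ : φ (zeta n) = zeta n) :
    abA φ ∈ Sp n := by
  intro u v
  obtain ⟨g, rfl⟩ := ev_surj u
  obtain ⟨h, rfl⟩ := ev_surj v
  rw [abA_ev, abA_ev, sf_ap hn φ hφ]

/-- kernel of the action -/
theorem abA_eq_one {φ : MulAut (FreeGroup (Fin 2 × Fin n))} :
    abA φ = 1 ↔ ∀ x, Abelianization.of (φ x) = Abelianization.of x := by
  constructor
  · intro h x
    rw [ab_iff_ev, ← abA_ev, h]; rfl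
  · intro h
    apply aa_ext; intro u
    obtain ⟨g, rfl⟩ := ev_surj u
    rw [abA_ev, ab_iff_ev.1 (h g)]; rfl

/-- finite index of a preimage -/
theorem fin_comap {Γ A : Type*} [Group Γ] [Group A] (π : Γ →* A) (N S : Subgroup A)
    (hS : ∀ g, π g ∈ S) (h : (N.subgroupOf S).FiniteIndex) : (N.comap π).FiniteIndex := by
  let π' : Γ →* S := π.codRestrict S hS
  have e : N.comap π = (N.subgroupOf S).comap π' := by
    ext g; rfl
  rw [e]
  refine ⟨?_⟩
  rw [Subgroup.index_comap]
  have h1 : ((N.subgroupOf S).subgroupOf π'.range).FiniteIndex := inferInstance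
  exact h1.index_ne_zero

/-- the preimage of the group generated by the `M`-th powers has finite index -/
theorem fi_comap (hn : 3 ≤ n) {M : ℕ} (hM : 0 < M) {Γ : Type*} [Group Γ] (π : Γ →* AA n)
    (hS : ∀ g, π g ∈ Sp n) : ((NS (M : ℤ) (∅ : Finset (Fin n))).comap π).FiniteIndex :=
  fin_comap π _ _ hS (fi hn hM)

/-- a finite dimensional subspace which is stable under a subgroup of finite index is contained in
a finite dimensional stable subspace -/
theorem lf_index {k Γ V : Type*} [Field k] [Group Γ] [AddCommGroup V] [Module k V]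
    (ρ : Γ →* (V →ₗ[k] V)) (Δ : Subgroup Γ) (hΔ : Δ.FiniteIndex) (W : Submodule k V)
    (hf : FiniteDimensional k W) (hW : ∀ g ∈ Δ, ∀ w ∈ W, ρ g w ∈ W) :
    ∃ W' : Submodule k V, W ≤ W' ∧ FiniteDimensional k W' ∧ ∀ g, ∀ w ∈ W', ρ g w ∈ W' := by
  have : Finite (Γ ⧸ Δ) := inferInstance
  let W' : Submodule k V := ⨆ q : Γ ⧸ Δ, W.map (ρ q.out)
  have hsub : ∀ g, W.map (ρ g) ≤ W' := by
    intro g
    refine le_trans ?_ (le_iSup (fun q : Γ ⧸ Δ => W.map (ρ q.out)) (g : Γ ⧸ Δ))
    rintro _ ⟨w, hw, rfl⟩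
    obtain ⟨δ, hδ⟩ : ∃ δ ∈ Δ, g = (g : Γ ⧸ Δ).out * δ := by
      refine ⟨((g : Γ ⧸ Δ).out)⁻¹ * g, ?_, by group⟩
      rw [← QuotientGroup.eq]
      exact Quotient.out_eq' _
    refine ⟨ρ δ w, hW δ hδ.1 w hw, ?_⟩
    conv_rhs => rw [hδ.2, _root_.map_mul]
    rfl
  refine ⟨W', ?_, ?_, ?_⟩
  · have := hsub 1
    rw [_root_.map_one] at this
    intro w hw
    exact this ⟨w, hw, rfl⟩
  · have : ∀ q : Γ ⧸ Δ, FiniteDimensional k (W.map (ρ q.out)) := fun q => inferInstance
    exact Submodule.finiteDimensional_iSup _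
  · intro g
    have h1 : W' ≤ W'.comap (ρ g) := by
      refine iSup_le fun q => ?_
      rintro _ ⟨w, hw, rfl⟩
      rw [Submodule.mem_comap]
      have h2 := hsub (g * q.out)
      apply h2
      refine ⟨w, hw, ?_⟩
      rw [_root_.map_mul]; rfl
    exact h1

end Pool.Agent.TOR.FI
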