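import Pool.Agent.TOR.Stmts

set_option autoImplicit false

/-! # Squad TOR, row EXA: examples -/

namespace Pool.Agent.TOR.H29

open Pool.Agent.TOR MvPolynomial

theorem thin_of_card {E : Type} [Field E] {c n D : ℕ} {f : MvPolynomial ℕ E}
    (h1 : f.vars ⊆ Finset.range n) (h2 : f.totalDegree ≤ D) (h3 : f.support.card ≤ c + 1) :
    IsThin E c n D f := by
  classical
  refine ⟨h1, h2, ?_⟩
  rcases Nat.eq_zero_or_pos f.support.card with h0 | hpos
  · rw [Finset.card_eq_zero] at h0
    rw [h0, Finset.coe_empty, Set.image_empty, vectorSpan_empty, finrank_bot]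
    exact Nat.zero_le c
  · obtain ⟨m, hm⟩ : ∃ m, f.support.card = m + 1 := ⟨f.support.card - 1, by omega⟩
    have h4 := finrank_vectorSpan_image_finset_le ℚ vec f.support hm
    rw [Finset.coe_image] at h4
    omega

theorem thin_of_vars {E : Type} [Field E] {c n D : ℕ} {f : MvPolynomial ℕ E}
    (h1 : f.vars ⊆ Finset.range n) (h2 : f.totalDegree ≤ D) (h3 : f.vars.card ≤ c) :
    IsThin E c n D f := by
  classical
  refine ⟨h1, h2, ?_⟩
  let B : Finset (ℕ →₀ ℚ) := f.vars.image fun i => Finsupp.single i (1 : ℚ)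
  have hvec : ∀ s ∈ f.support, vec s ∈ Submodule.span ℚ (B : Set (ℕ →₀ ℚ)) := by
    intro s hs
    rw [← Finsupp.sum_single (vec s)]
    refine Submodule.sum_mem _ fun i hi => ?_
    have hi' : i ∈ s.support := by
      rw [Finsupp.mem_support_iff] at hi ⊢
      intro h0
      apply hi
      change ((s i : ℕ) : ℚ) = 0
      rw [h0, Nat.cast_zero]
    have hmem : Finsupp.single i (1 : ℚ) ∈ (B : Set (ℕ →₀ ℚ)) := by
      rw [Finset.mem_coe]
      exact Finset.mem_image_of_mem _ ((mem_vars i).2 ⟨s, hs, hi'⟩)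
    have h4 := Submodule.smul_mem (Submodule.span ℚ (B : Set (ℕ →₀ ℚ))) (vec s i)
      (Submodule.subset_span hmem)
    rwa [Finsupp.smul_single, smul_eq_mul, mul_one] at h4
  have hle : vectorSpan ℚ (vec '' (f.support : Set (ℕ →₀ ℕ))) ≤
      Submodule.span ℚ (B : Set (ℕ →₀ ℚ)) := by
    rw [vectorSpan_def]
    apply Submodule.span_le.2
    rintro _ ⟨_, ⟨s, hs, rfl⟩, _, ⟨s', hs', rfl⟩, rfl⟩
    exact Submodule.sub_mem _ (hvec s hs) (hvec s' hs')
  calc Module.finrank ℚ (vectorSpan ℚ (vec '' (f.support : Set (ℕ →₀ ℕ))))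
      ≤ Module.finrank ℚ (Submodule.span ℚ (B : Set (ℕ →₀ ℚ))) :=
        Submodule.finrank_mono hle
    _ ≤ B.card := finrank_span_finset_le_card B
    _ ≤ f.vars.card := Finset.card_image_le
    _ ≤ c := h3

theorem exa : ExaStmt := by
  intro E _ k c n s D
  refine ⟨fun f h1 h2 h3 => thin_of_card h1 h2 h3, fun f h1 h2 h3 => thin_of_vars h1 h2 h3, ?_⟩
  intro N g f e hN hf hg
  classical
  refine ⟨k, fun i => g i * ∏ v, f i v ^ e i v, ∑ i, X i, ?_, ?_, ?_⟩
  · intro i
    obtain ⟨hg1, hg2, hg3⟩ := hg i
    let M := (g i).support.card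
    let enum : Fin M ≃ (g i).support := (g i).support.equivFin.symm
    refine ⟨N i, M, f i, e i, fun t => monomial (enum t).1 (coeff (enum t).1 (g i)),
      fun _ => 1, hN i, hg3, hf i, ?_, ?_, ?_⟩
    · intro t
      have hc0 : coeff (enum t).1 (g i) ≠ 0 := mem_support_iff.1 (enum t).2
      apply thin_of_card
      · intro j hj
        rw [vars_monomial hc0] at hj
        exact hg1 ((mem_vars j).2 ⟨_, (enum t).2, hj⟩)
      · rw [totalDegree_monomial _ hc0]
        exact (le_totalDegree (enum t).2).trans hg2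
      · exact (Finset.card_le_card support_monomial_subset).trans (by simp)
    · intro t
      refine ⟨?_, one_ne_zero⟩
      apply thin_of_card
      · rw [vars_one]
        exact Finset.empty_subset _
      · rw [totalDegree_one]
        exact Nat.zero_le D
      · have : (1 : MvPolynomial ℕ E) = monomial 0 1 := rfl
        rw [this]
        exact (Finset.card_le_card support_monomial_subset).trans (by simp)
    · simp only [Finset.prod_const_one, mul_one]
      rw [mul_comm]
      congr 1
      calc g i = ∑ x ∈ (g i).support, monomial x (coeff x (g i)) := (g i).as_sum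
        _ = ∑ x : (g i).support, monomial x.1 (coeff x.1 (g i)) :=
          (Finset.sum_coe_sort (g i).support fun x => monomial x (coeff x (g i))).symm
        _ = ∑ t : Fin M, monomial (enum t).1 (coeff (enum t).1 (g i)) :=
          (Fintype.sum_equiv enum _ _ fun t => rfl).symm
  · intro s' _
    exact (Finset.card_le_univ s').trans (by simp)
  · rw [map_sum]
    refine Finset.sum_congr rfl fun i _ => ?_
    rw [aeval_X]

end Pool.Agent.TOR.H29
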