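import Pool.Agent.TOR.Stmts

set_option autoImplicit false

/-! # Squad TOR, row TST: the test for circuits, from the hitting set -/

namespace Pool.Agent.TOR.H29

open Pool.Agent.Helper78_ACIT Pool.Agent.UO Pool.Agent.TOR MvPolynomial

theorem tpoint_map {R S : Type} [CommRing R] [CommRing S] (φ : R →+* S) (n q : ℕ) {t : ℕ}
    (α : Fin t → Fin q) (y : Fin t → R) (i : ℕ) :
    φ (tpoint n q α y i) = tpoint n q α (fun j => φ (y j)) i := by
  unfold tpoint
  split_ifs
  · rw [map_prod]
    simp only [map_pow]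
  · exact map_zero φ

theorem degreeOf_tpoint (n q t i : ℕ) (α : Fin t → Fin q) (s : Fin t) :
    degreeOf s (tpoint n q α (fun j => (X j : MvPolynomial (Fin t) ℤ)) i) ≤ q := by
  classical
  unfold tpoint
  split_ifs with h
  · refine (degreeOf_prod_le _ _ _).trans ?_
    have hq : 0 < q := lt_of_le_of_lt (Nat.zero_le _) (α s).2
    calc ∑ j, degreeOf s ((X j : MvPolynomial (Fin t) ℤ) ^ ((α j : ℕ) ^ i % q))
        ≤ ∑ j, (if s = j then q else 0) := by
          refine Finset.sum_le_sum fun j _ => ?_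
          refine (degreeOf_pow_le _ _ _).trans ?_
          rw [degreeOf_X]
          split_ifs
          · rw [mul_one]
            exact (Nat.mod_lt _ hq).le
          · rw [mul_zero]
      _ = q := by simp
  · rw [degreeOf_zero]
    exact Nat.zero_le q

theorem natAbs_tpoint_le (n q D t : ℕ) (α : Fin t → Fin q) (y : Fin t → ℕ)
    (hy : ∀ j, y j ≤ q * D) (i : ℕ) :
    (tpoint n q α (fun j => (y j : ℤ)) i).natAbs ≤ 2 ^ (q * D * (t * q)) := by
  unfold tpoint
  split_ifs with h
  · rw [natAbs_prod']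
    calc ∏ j, ((y j : ℤ) ^ ((α j : ℕ) ^ i % q)).natAbs ≤ ∏ _j : Fin t, 2 ^ (q * D * q) := by
          refine Finset.prod_le_prod' fun j _ => ?_
          rw [Int.natAbs_pow, Int.natAbs_natCast]
          have hq : 0 < q := lt_of_le_of_lt (Nat.zero_le _) (α j).2
          calc y j ^ ((α j : ℕ) ^ i % q) ≤ (2 ^ (q * D)) ^ ((α j : ℕ) ^ i % q) :=
                Nat.pow_le_pow_left ((hy j).trans Nat.lt_two_pow_self.le) _
            _ ≤ (2 ^ (q * D)) ^ q :=
                Nat.pow_le_pow_right (Nat.one_le_pow _ _ (by norm_num)) (Nat.mod_lt _ hq).le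
            _ = 2 ^ (q * D * q) := by rw [← pow_mul]
      _ = 2 ^ (q * D * (t * q)) := by
          rw [Finset.prod_const, Finset.card_univ, Fintype.card_fin, ← pow_mul]
          ring_nf
  · simp

/-- A small integer point on the generator where a factor does not vanish. -/
theorem int_hit {E : Type} [Field E] [CharZero E] (n q D t : ℕ) (α : Fin t → Fin q)
    (P : MvPolynomial ℕ ℤ) (hD : P.totalDegree ≤ D) (Q : MvPolynomial ℕ E)
    (hQ : ∃ y : Fin t → E, eval (tpoint n q α y) Q ≠ 0)
    (hdvd : map (Int.castRingHom E) P ∣ Q) :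
    ∃ y : Fin t → ℕ, (∀ j, y j ≤ q * D) ∧ eval (tpoint n q α (fun j => (y j : ℤ))) P ≠ 0 := by
  classical
  obtain ⟨y0, h1⟩ := hQ
  obtain ⟨H, hH⟩ : ∃ H : MvPolynomial (Fin t) ℤ, H = aeval
    (tpoint n q α (fun j => (X j : MvPolynomial (Fin t) ℤ))) P := ⟨_, rfl⟩
  have heval : ∀ x : Fin t → ℤ, eval x H = eval (tpoint n q α x) P := by
    intro x
    rw [hH]
    have h3 : (eval x).comp (aeval (R := ℤ)
        (tpoint n q α (fun j => (X j : MvPolynomial (Fin t) ℤ)))).toRingHom =
        eval (tpoint n q α x) := by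
      apply MvPolynomial.ringHom_ext
      · intro a
        simp
      · intro i
        simp only [AlgHom.toRingHom_eq_coe, RingHom.coe_comp, RingHom.coe_coe,
          Function.comp_apply, aeval_X, eval_X]
        rw [tpoint_map (eval x)]
        simp only [eval_X]
    exact RingHom.congr_fun h3 P
  have hHne : H ≠ 0 := by
    intro hH0
    apply h1
    obtain ⟨g, hg⟩ := hdvd
    rw [hg, map_mul]
    have h3 : (eval (tpoint n q α y0)).comp (map (Int.castRingHom E)) =
        (eval₂Hom (Int.castRingHom E) y0).comp (aeval (R := ℤ)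
        (tpoint n q α (fun j => (X j : MvPolynomial (Fin t) ℤ)))).toRingHom := by
      apply MvPolynomial.ringHom_ext
      · intro a
        simp
      · intro i
        simp only [AlgHom.toRingHom_eq_coe, RingHom.coe_comp, RingHom.coe_coe,
          Function.comp_apply, aeval_X, map_X, eval_X]
        rw [tpoint_map (eval₂Hom (Int.castRingHom E) y0)]
        simp only [coe_eval₂Hom, eval₂_X]
    have h4 := RingHom.congr_fun h3 P
    simp only [AlgHom.toRingHom_eq_coe, RingHom.coe_comp, RingHom.coe_coe,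
      Function.comp_apply] at h4
    rw [h4, ← hH, hH0, map_zero, zero_mul]
  by_contra hcon
  push Not at hcon
  apply hHne
  apply eq_zero_of_eval_zero_at_prod_finset H
    (fun _ => (Finset.range (q * D + 1)).image (fun a : ℕ => (a : ℤ)))
  · intro i
    rw [Finset.card_image_of_injective _ Nat.cast_injective, Finset.card_range, hH]
    exact Nat.lt_succ_of_le
      (degreeOf_aeval_le _ P q D i (fun j => degreeOf_tpoint n q t j α i) hD)
  · intro x hx
    have hx' : ∀ i, ∃ a : ℕ, a ≤ q * D ∧ (a : ℤ) = x i := by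
      intro i
      obtain ⟨a, ha, ha'⟩ := Finset.mem_image.mp (hx i)
      exact ⟨a, Nat.lt_succ_iff.mp (Finset.mem_range.mp ha), ha'⟩
    choose a ha ha' using hx'
    rw [heval]
    have := hcon a ha
    simpa only [ha'] using this

theorem tst : TstStmt := by
  intro E _ _ n t q P _ hP D b G hG hpoly
  have hval : ∀ (p : ℕ) (α : Fin t → Fin q) (y : Fin t → Fin (q * D + 1)),
      out (tpoint n q α fun j => ((y j : ℕ) : ZMod p)) G =
      ((eval (tpoint n q α (fun j => ((y j : ℕ) : ℤ))) (poly G) : ℤ) : ZMod p) := by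
    intro p α y
    have h1 := out_map (Int.castRingHom (ZMod p))
      (tpoint n q α (fun j => ((y j : ℕ) : ℤ))) G
    have h2 : (fun i => Int.castRingHom (ZMod p)
        (tpoint n q α (fun j => ((y j : ℕ) : ℤ)) i)) =
        tpoint n q α (fun j => ((y j : ℕ) : ZMod p)) := by
      funext i
      rw [tpoint_map]
      simp
    rw [h2] at h1
    rw [← h1, out_eq_eval]
    rfl
  constructor
  · rintro ⟨-, h0⟩ p _ _ α y
    rw [hval, h0, map_zero, Int.cast_zero]
  · intro htest
    refine ⟨hG, ?_⟩
    rcases hpoly with h0 | ⟨hD, hb, F, hF, hdvd⟩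
    · exact h0
    exfalso
    obtain ⟨α, hα⟩ := hP F hF
    obtain ⟨y, hy, hne⟩ := int_hit n q D t α (poly G) hD _ hα hdvd
    obtain ⟨V, hV⟩ : ∃ V, V = eval (tpoint n q α (fun j => (y j : ℤ))) (poly G) := ⟨_, rfl⟩
    rw [← hV] at hne
    have hVle : V.natAbs ≤ 2 ^ (b + t * (q * D) ^ 2) := by
      rw [hV]
      refine (natAbs_eval_le (poly G) _ (2 ^ (q * D * (t * q))) D
        (Nat.one_le_pow _ _ (by norm_num)) (natAbs_tpoint_le n q D t α y hy) hD).trans ?_
      rw [← pow_mul, pow_add, show q * D * (t * q) * D = t * (q * D) ^ 2 by ring]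
      exact Nat.mul_le_mul_right _ hb
    obtain ⟨p, hp, hple, hpnd⟩ := exists_prime_not_dvd V.natAbs _ (Int.natAbs_ne_zero.mpr hne)
      hVle
    apply hpnd
    have h1 := htest p hp hple α (fun j => ⟨y j, Nat.lt_succ_of_le (hy j)⟩)
    rw [hval] at h1
    have h2 : ((V : ℤ) : ZMod p) = 0 := by
      rw [hV]
      exact h1
    rw [ZMod.intCast_zmod_eq_zero_iff_dvd, Int.natCast_dvd] at h2
    exact h2

end Pool.Agent.TOR.H29
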