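import Pool.Agent.Helper29_TOR.If3

/-! TOR, part (a): the integral symplectic group, transvections; definitions and basic facts. -/

set_option autoImplicit false

namespace Pool.Agent.TOR.FI

open Pool.Agent.TOR.H29

open scoped BigOperators

/-- the homology lattice -/
abbrev HH (n : ℕ) : Type := Fin 2 × Fin n → ℤ

/-- its automorphisms -/
abbrev AA (n : ℕ) : Type := HH n ≃ₗ[ℤ] HH n

variable {n : ℕ}

/-- the symplectic group -/
def Sp (n : ℕ) : Subgroup (AA n) where
  carrier := {φ | ∀ u v, sf (φ u) (φ v) = sf u v}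
  mul_mem' := by
    intro a b ha hb u v
    show sf (a (b u)) (a (b v)) = _
    rw [ha, hb]
  one_mem' := fun u v => rfl
  inv_mem' := by
    intro a ha u v
    have h := ha (a⁻¹ u) (a⁻¹ v)
    have e : ∀ w, a (a⁻¹ w) = w := fun w => LinearEquiv.apply_symm_apply a w
    rw [e, e] at h
    exact h.symm

theorem mem_Sp {φ : AA n} : φ ∈ Sp n ↔ ∀ u v, sf (φ u) (φ v) = sf u v := Iff.rfl

theorem inv_app (φ : AA n) (x : HH n) : φ⁻¹ (φ x) = x := LinearEquiv.symm_apply_apply φ x
theorem app_inv (φ : AA n) (x : HH n) : φ (φ⁻¹ x) = x := LinearEquiv.apply_symm_apply φ x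
theorem mul_app (φ ψ : AA n) (x : HH n) : (φ * ψ) x = φ (ψ x) := rfl
theorem one_app (x : HH n) : (1 : AA n) x = x := rfl

/-- the transvection as a linear map -/
def tvl (v : HH n) (c : ℤ) : HH n →ₗ[ℤ] HH n where
  toFun x := x + (c * sf x v) • v
  map_add' x y := by
    rw [sf_add_left, mul_add, add_smul]; abel
  map_smul' r x := by
    rw [sf_smul_left, RingHom.id_apply, smul_add, smul_smul]
    congr 2; ring

/-- the powers of the transvection `x ↦ x + sf x v • v` -/
def tv (v : HH n) (c : ℤ) : AA n :=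
  LinearEquiv.ofLinear (tvl v c) (tvl v (-c))
    (by
      apply LinearMap.ext; intro x
      show (x + (-c * sf x v) • v) + (c * sf (x + (-c * sf x v) • v) v) • v = x
      rw [sf_add_left, sf_smul_left, sf_self]
      module)
    (by
      apply LinearMap.ext; intro x
      show (x + (c * sf x v) • v) + (-c * sf (x + (c * sf x v) • v) v) • v = x
      rw [sf_add_left, sf_smul_left, sf_self]
      module)

theorem tv_app (v : HH n) (c : ℤ) (x : HH n) : tv v c x = x + (c * sf x v) • v := rfl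

theorem aa_ext {φ ψ : AA n} (h : ∀ x, φ x = ψ x) : φ = ψ := LinearEquiv.ext h

theorem tv_add (v : HH n) (c d : ℤ) : tv v (c + d) = tv v c * tv v d := by
  apply aa_ext; intro x
  rw [mul_app, tv_app, tv_app, tv_app, sf_add_left, sf_smul_left, sf_self]
  module

theorem tv_zero (v : HH n) : tv v 0 = 1 := by
  apply aa_ext; intro x
  rw [tv_app, one_app]; simp

theorem tv_neg (v : HH n) (c : ℤ) : tv v (-c) = (tv v c)⁻¹ := by
  apply eq_inv_of_mul_eq_one_left
  rw [← tv_add, neg_add_cancel, tv_zero]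

theorem tv_zpow (v : HH n) (c k : ℤ) : tv v (c * k) = (tv v c) ^ k := by
  induction k using Int.induction_on with
  | zero => rw [mul_zero, tv_zero, zpow_zero]
  | succ k ih => rw [mul_add, mul_one, tv_add, ih, zpow_add, zpow_one]
  | pred k ih => rw [mul_sub, mul_one, sub_eq_add_neg, tv_add, ih, tv_neg, zpow_sub, zpow_one]

theorem tv_pow (v : HH n) (c : ℤ) (k : ℕ) : (tv v c) ^ k = tv v (c * k) := by
  rw [tv_zpow, zpow_natCast]

theorem tv_mem_Sp (v : HH n) (c : ℤ) : tv v c ∈ Sp n := by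
  intro x y
  rw [tv_app, tv_app, sf_add_left, sf_add_right, sf_add_right, sf_smul_left, sf_smul_right,
    sf_smul_left, sf_smul_right, sf_self, sf_swap v y]
  ring

theorem tv_conj {φ : AA n} (h : φ ∈ Sp n) (v : HH n) (c : ℤ) : φ * tv v c * φ⁻¹ = tv (φ v) c := by
  apply aa_ext; intro x
  rw [mul_app, mul_app, tv_app, tv_app, map_add, map_smul, app_inv]
  have e := h (φ⁻¹ x) v
  rw [app_inv] at e
  rw [e]

/-! ### basis vectors -/

/-- basis vectors -/
def bv (a : Fin 2 × Fin n) : HH n := Pi.single a 1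

theorem bv_same (a : Fin 2 × Fin n) : bv a a = 1 := Pi.single_eq_same _ _
theorem bv_ne {a b : Fin 2 × Fin n} (h : b ≠ a) : bv a b = 0 := Pi.single_eq_of_ne h _
theorem bv_ne2 {a b : Fin 2 × Fin n} (h : b.2 ≠ a.2) : bv a b = 0 :=
  bv_ne fun e => h (congrArg Prod.snd e)

theorem e_sf (i : Fin n) (x : HH n) : sf (bv (0, i)) x = x (1, i) := by
  unfold bv; rw [sf_single_left]; rfl
theorem f_sf (i : Fin n) (x : HH n) : sf (bv (1, i)) x = - x (0, i) := by
  unfold bv; rw [sf_single_left]; rfl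
theorem sf_e (i : Fin n) (x : HH n) : sf x (bv (0, i)) = - x (1, i) := by
  rw [sf_swap, e_sf]
theorem sf_f (i : Fin n) (x : HH n) : sf x (bv (1, i)) = x (0, i) := by
  rw [sf_swap, f_sf, neg_neg]

/-- orthogonality of the blocks -/
theorem sf_bv_zero {a : Fin 2 × Fin n} {x : HH n} (h : ∀ b, b.2 = a.2 → x b = 0) :
    sf (bv a) x = 0 := by
  obtain ⟨c, i⟩ := a
  fin_cases c
  · show sf (bv (0, i)) x = 0
    rw [e_sf]; exact h _ rfl
  · show sf (bv (1, i)) x = 0
    rw [f_sf, h (0, i) rfl, neg_zero]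

/-- supports -/
theorem sf_supp {x y : HH n} (h : ∀ a : Fin n, (∀ c, x (c, a) = 0) ∨ (∀ c, y (c, a) = 0)) :
    sf x y = 0 := by
  unfold sf
  refine Finset.sum_eq_zero fun j _ => ?_
  rcases h j with h | h
  · rw [h, h]; ring
  · rw [h, h]; ring

/-! ### the generating transvections -/

/-- unimodular vectors outside the blocks `S` -/
def U (S : Finset (Fin n)) (v : HH n) : Prop := (∀ a, a.2 ∈ S → v a = 0) ∧ ∃ w, sf v w = 1

/-- the subgroup generated by the `M`-th powers of the transvections, blocks outside `S` -/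
def NS (M : ℤ) (S : Finset (Fin n)) : Subgroup (AA n) :=
  Subgroup.closure {φ | ∃ v, U S v ∧ φ = tv v M}

theorem tv_mem {M : ℤ} {S : Finset (Fin n)} {v : HH n} (hv : U S v) {c : ℤ} (hc : M ∣ c) :
    tv v c ∈ NS M S := by
  obtain ⟨k, rfl⟩ := hc
  rw [tv_zpow]
  have h : tv v M ∈ NS M S := Subgroup.subset_closure ⟨v, hv, rfl⟩
  exact Subgroup.zpow_mem _ h k

theorem NS_le {M : ℤ} {S : Finset (Fin n)} {K : Subgroup (AA n)}
    (h : ∀ v, U S v → tv v M ∈ K) : NS M S ≤ K := by
  refine (Subgroup.closure_le K).2 ?_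
  rintro _ ⟨v, hv, rfl⟩
  exact h v hv

theorem NS_mono {M M' : ℤ} (h : M' ∣ M) (S : Finset (Fin n)) : NS M S ≤ NS M' S :=
  NS_le fun _ hv => tv_mem hv h

theorem NS_le_Sp (M : ℤ) (S : Finset (Fin n)) : NS M S ≤ Sp n := NS_le fun v _ => tv_mem_Sp v M

theorem U.mono {S S' : Finset (Fin n)} (h : S ⊆ S') {v : HH n} (hv : U S' v) : U S v :=
  ⟨fun a ha => hv.1 a (h ha), hv.2⟩

theorem NS_anti (M : ℤ) {S S' : Finset (Fin n)} (h : S ⊆ S') : NS M S' ≤ NS M S :=
  NS_le fun _ hv => tv_mem (hv.mono h) dvd_rfl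

/-- the automorphisms preserving the vectors outside the blocks `S` -/
def LL (S : Finset (Fin n)) : Subgroup (AA n) where
  carrier := {φ | ∀ x, (∀ a, a.2 ∈ S → φ x a = 0) ↔ (∀ a, a.2 ∈ S → x a = 0)}
  mul_mem' := by
    intro φ ψ h1 h2 x
    rw [← h2 x, ← h1 (ψ x)]
    rfl
  one_mem' := fun x => Iff.rfl
  inv_mem' := by
    intro φ h x
    have := h (φ⁻¹ x)
    rw [app_inv] at this
    exact this.symm

theorem NS_le_LL (M : ℤ) (S : Finset (Fin n)) : NS M S ≤ LL S := by
  refine NS_le fun v hv => ?_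
  intro x
  refine forall_congr' fun a => imp_congr_right fun ha => ?_
  rw [tv_app, Pi.add_apply, Pi.smul_apply, hv.1 a ha, smul_zero, add_zero]

theorem NS_supp {M : ℤ} {S : Finset (Fin n)} {g : AA n} (hg : g ∈ NS M S) {x : HH n}
    (hx : ∀ a, a.2 ∈ S → x a = 0) : ∀ a, a.2 ∈ S → g x a = 0 :=
  (NS_le_LL M S hg x).2 hx

/-- the congruence subgroup of all the automorphisms -/
def CC (n : ℕ) (M : ℤ) : Subgroup (AA n) where
  carrier := {φ | ∀ x a, M ∣ (φ x - x) a}
  mul_mem' := by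
    intro φ ψ h1 h2 x a
    have e : (φ * ψ) x - x = (φ (ψ x) - ψ x) + (ψ x - x) := by
      rw [mul_app]; abel
    rw [e, Pi.add_apply]
    exact dvd_add (h1 _ _) (h2 _ _)
  one_mem' := by
    intro x a
    rw [one_app, sub_self]
    exact dvd_zero _
  inv_mem' := by
    intro φ h x a
    have := h (φ⁻¹ x) a
    rw [app_inv] at this
    rw [← dvd_neg, ← Pi.neg_apply, neg_sub]
    exact this

theorem NS_le_CC (M : ℤ) (S : Finset (Fin n)) : NS M S ≤ CC n M := by
  refine NS_le fun v _ => ?_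
  intro x a
  rw [tv_app, add_sub_cancel_left, Pi.smul_apply, smul_eq_mul, mul_assoc]
  exact dvd_mul_right _ _

theorem U_map {M : ℤ} {S : Finset (Fin n)} {g : AA n} (hg : g ∈ NS M S) {v : HH n} (hv : U S v) :
    U S (g v) := by
  obtain ⟨h1, w, hw⟩ := hv
  exact ⟨NS_supp hg h1, g w, by rw [NS_le_Sp M S hg, hw]⟩

/-- `NS 1 S` normalizes `NS M S` -/
theorem NS_norm {M : ℤ} {S : Finset (Fin n)} {g : AA n} (hg : g ∈ NS 1 S) {m : AA n}
    (hm : m ∈ NS M S) : g * m * g⁻¹ ∈ NS M S := by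
  have : NS M S ≤ (NS M S).comap (MulAut.conj g).toMonoidHom := by
    refine NS_le fun v hv => ?_
    rw [Subgroup.mem_comap]
    show g * tv v M * g⁻¹ ∈ NS M S
    rw [tv_conj (NS_le_Sp 1 S hg)]
    exact tv_mem (U_map hg hv) dvd_rfl
  exact this hm

theorem NS_norm' {M : ℤ} {S : Finset (Fin n)} {g : AA n} (hg : g ∈ NS 1 S) {m : AA n}
    (hm : m ∈ NS M S) : g⁻¹ * m * g ∈ NS M S := by
  have := NS_norm (Subgroup.inv_mem _ hg) hm
  rwa [inv_inv] at this

/-- the whole symplectic group normalizes `NS M ∅` -/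
theorem Sp_norm {M : ℤ} {g : AA n} (hg : g ∈ Sp n) {m : AA n} (hm : m ∈ NS M ∅) :
    g * m * g⁻¹ ∈ NS M (∅ : Finset (Fin n)) := by
  have : NS M (∅ : Finset (Fin n)) ≤ (NS M ∅).comap (MulAut.conj g).toMonoidHom := by
    refine NS_le fun v hv => ?_
    rw [Subgroup.mem_comap]
    show g * tv v M * g⁻¹ ∈ NS M ∅
    rw [tv_conj hg]
    refine tv_mem ⟨fun a ha => absurd ha (Finset.notMem_empty _), ?_⟩ dvd_rfl
    obtain ⟨w, hw⟩ := hv.2
    exact ⟨g w, by rw [hg, hw]⟩
  exact this hm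

theorem U_bv {S : Finset (Fin n)} {a : Fin 2 × Fin n} (ha : a.2 ∉ S) : U S (bv a) := by
  refine ⟨fun b hb => bv_ne2 fun e => ha (e ▸ hb), ?_⟩
  obtain ⟨c, i⟩ := a
  fin_cases c
  · exact ⟨bv (1, i), by show sf (bv (0, i)) _ = 1; rw [e_sf, bv_same]⟩
  · exact ⟨-bv (0, i), by show sf (bv (1, i)) _ = 1; rw [f_sf, Pi.neg_apply, bv_same]; rfl⟩

theorem U_bv_add {S : Finset (Fin n)} {a b : Fin 2 × Fin n} (ha : a.2 ∉ S) (hb : b.2 ∉ S)
    (hab : a.2 ≠ b.2) : U S (bv a + bv b) := by
  refine ⟨fun c hc => by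
    rw [Pi.add_apply, (U_bv ha).1 c hc, (U_bv hb).1 c hc, add_zero], ?_⟩
  obtain ⟨c, i⟩ := a
  have h0 : ∀ c', sf (bv b) (bv (c', i)) = 0 := fun c' => by
    refine sf_bv_zero fun d hd => bv_ne2 ?_
    rw [hd]; exact fun e => hab e.symm
  fin_cases c
  · exact ⟨bv (1, i), by
      show sf (bv (0, i) + bv b) _ = 1; rw [sf_add_left, e_sf, bv_same, h0]; rfl⟩
  · exact ⟨-bv (0, i), by
      show sf (bv (1, i) + bv b) _ = 1
      rw [sf_add_left, f_sf, Pi.neg_apply, bv_same, sf_neg_right, h0]; rfl⟩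

/-! ### the maps `x ↦ x + sf x e • w + sf x w • e` -/

/-- the subgroup `N` contains the map `x ↦ x + sf x e • w + sf x w • e` -/
def XN (N : Subgroup (AA n)) (e w : HH n) : Prop :=
  ∃ m ∈ N, ∀ x, m x = x + sf x e • w + sf x w • e

theorem XN_zero (N : Subgroup (AA n)) (e : HH n) : XN N e 0 :=
  ⟨1, N.one_mem, fun x => by rw [one_app, sf_zero_right]; simp⟩

theorem XN_single {M : ℤ} {S : Finset (Fin n)} {e w : HH n} (he : U S e) (hw : U S w)
    (hew : U S (e + w)) (h : sf e w = 0) {c : ℤ} (hc : M ∣ c) : XN (NS M S) e (c • w) := by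
  refine ⟨tv (e + w) c * tv e (-c) * tv w (-c), ?_, ?_⟩
  · exact Subgroup.mul_mem _ (Subgroup.mul_mem _ (tv_mem hew hc) (tv_mem he (dvd_neg.2 hc)))
      (tv_mem hw (dvd_neg.2 hc))
  · intro x
    have h' : sf w e = 0 := by rw [sf_swap, h, neg_zero]
    rw [mul_app, mul_app, tv_app, tv_app, tv_app]
    simp only [sf_add_left, sf_add_right, sf_smul_left, sf_smul_right, sf_self, h, h']
    module

theorem XN_add {N : Subgroup (AA n)} {e w w' : HH n} (h : XN N e w) (h' : XN N e w')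
    (ho : sf e w = 0) (ho' : sf e w' = 0) (ht : tv e (-(sf w' w)) ∈ N) : XN N e (w + w') := by
  obtain ⟨m, hm, h1⟩ := h
  obtain ⟨m', hm', h2⟩ := h'
  refine ⟨tv e (-(sf w' w)) * (m * m'), N.mul_mem ht (N.mul_mem hm hm'), ?_⟩
  intro x
  have o1 : sf w e = 0 := by rw [sf_swap, ho, neg_zero]
  have o2 : sf w' e = 0 := by rw [sf_swap, ho', neg_zero]
  rw [mul_app, mul_app, h1, h2, tv_app]
  simp only [sf_add_left, sf_add_right, sf_smul_left, sf_smul_right, sf_self, ho, ho', o1, o2]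
  module

theorem XN_all {M : ℤ} {S : Finset (Fin n)} {a0 : Fin 2 × Fin n} (ha0 : a0.2 ∉ S) (w : HH n)
    (hS : ∀ a, a.2 ∈ S → w a = 0) (h0 : ∀ a, a.2 = a0.2 → w a = 0) (hM : ∀ a, M ∣ w a) :
    XN (NS M S) (bv a0) w := by
  classical
  have key : ∀ s : Finset (Fin 2 × Fin n), XN (NS M S) (bv a0) (fun a => if a ∈ s then w a else 0) := by
    intro s
    induction s using Finset.induction_on with
    | empty =>
      have : (fun a => if a ∈ (∅ : Finset (Fin 2 × Fin n)) then w a else 0) = (0 : HH n) := by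
        funext a; simp
      rw [this]; exact XN_zero _ _
    | insert b s hb ih =>
      by_cases hwb : w b = 0
      · have : (fun a => if a ∈ insert b s then w a else 0) = fun a => if a ∈ s then w a else 0 := by
          funext a
          by_cases hab : a = b
          · subst hab; simp [hwb]
          · simp [hab]
        rw [this]; exact ih
      have hbS : b.2 ∉ S := fun h => hwb (hS b h)
      have hb0 : b.2 ≠ a0.2 := fun h => hwb (h0 b h)
      have e : (fun a => if a ∈ insert b s then w a else 0) =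
          (w b • bv b : HH n) + (fun a => if a ∈ s then w a else 0) := by
        funext a
        rw [Pi.add_apply, Pi.smul_apply, smul_eq_mul]
        by_cases hab : a = b
        · subst hab
          rw [bv_same, if_pos (Finset.mem_insert_self _ _), if_neg hb]; ring
        · rw [bv_ne hab]
          simp [hab]
      rw [e]
      have o1 : sf (bv a0) (bv b) = 0 := by
        refine sf_bv_zero fun d hd => bv_ne2 ?_
        rw [hd]; exact fun h => hb0 h.symm
      refine XN_add ?_ ih ?_ ?_ ?_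
      · exact XN_single (U_bv ha0) (U_bv hbS) (U_bv_add ha0 hbS hb0.symm) o1 (hM b)
      · rw [sf_smul_right, o1, mul_zero]
      · refine sf_bv_zero fun d hd => ?_
        show (if d ∈ s then w d else 0) = 0
        rw [h0 d hd, ite_self]
      · refine tv_mem (U_bv ha0) ?_
        rw [dvd_neg, sf_smul_right]
        exact (hM b).mul_right _
  have := key Finset.univ
  simpa using this

end Pool.Agent.TOR.FI
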