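import Pool.Agent.Helper29_TOR.Fi1

/-! TOR, part (a): transitivity of the normal closure of the powers of the transvections on the
unimodular vectors in a congruence class. -/

set_option autoImplicit false

namespace Pool.Agent.TOR.FI

open Pool.Agent.TOR.H29

open scoped BigOperators

variable {n : ℕ}

/-- choice of a coprime residue -/
theorem cop (a b D : ℤ) (hD : D ≠ 0) : ∃ t : ℤ, ∀ p : ℕ, p.Prime → (p : ℤ) ∣ D →
    (p : ℤ) ∣ a + t * b → (p : ℤ) ∣ a ∧ (p : ℤ) ∣ b := by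
  classical
  let s : Finset ℕ := D.natAbs.primeFactors.filter (fun p => ¬ (p : ℤ) ∣ a)
  have hs : ∀ q ∈ s, q.Prime := fun q hq =>
    Nat.prime_of_mem_primeFactors (Finset.mem_of_mem_filter q hq)
  refine ⟨((∏ p ∈ s, p : ℕ) : ℤ), fun p hp hpD h => ?_⟩
  have ha : (p : ℤ) ∣ a := by
    by_contra hna
    have hps : p ∈ s := by
      refine Finset.mem_filter.2 ⟨?_, hna⟩
      rw [Nat.mem_primeFactors]
      exact ⟨hp, Int.natCast_dvd.1 hpD, by simpa using hD⟩
    have h1 : (p : ℤ) ∣ ((∏ p ∈ s, p : ℕ) : ℤ) := by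
      exact_mod_cast Finset.dvd_prod_of_mem (fun p => p) hps
    exact hna ((dvd_add_left (h1.mul_right b)).1 h)
  refine ⟨ha, ?_⟩
  have h2 := (dvd_add_right ha).1 h
  rcases (Nat.prime_iff_prime_int.1 hp).dvd_or_dvd h2 with h3 | h3
  · exfalso
    have h4 : p ∣ ∏ p ∈ s, p := by exact_mod_cast h3
    rw [Prime.dvd_finsetProd_iff hp.prime] at h4
    obtain ⟨q, hq, hpq⟩ := h4
    have h5 : p = q := (Nat.prime_dvd_prime_iff_eq hp (hs q hq)).1 hpq
    subst h5
    exact (Finset.mem_filter.1 hq).2 ha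
  · exact h3

/-- a vector with coprime coordinates outside the block `i0` is unimodular there -/
theorem bez (S : Finset (Fin n)) (i0 : Fin n) (k : HH n) (hk : ∀ a, a.2 ∈ S → k a = 0)
    (h : ∀ p : ℕ, p.Prime → ∃ a, a.2 ≠ i0 ∧ ¬ (p : ℤ) ∣ k a) :
    ∃ u : HH n, (∀ a, a.2 ∈ S → u a = 0) ∧ (∀ a, a.2 = i0 → u a = 0) ∧ sf k u = 1 := by
  classical
  let k' : Fin 2 × Fin n → ℤ := fun a => if a.2 ≠ i0 then k a else 0
  have htop : Ideal.span (Set.range k') = ⊤ := by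
    obtain ⟨d, hd⟩ := (IsPrincipalIdealRing.principal (Ideal.span (Set.range k'))).principal
    have hdv : ∀ a, d ∣ k' a := fun a => by
      have : k' a ∈ Ideal.span (Set.range k') := Ideal.subset_span ⟨a, rfl⟩
      rw [hd] at this
      exact Ideal.mem_span_singleton.1 this
    by_cases h1 : d.natAbs = 1
    · rw [hd]
      exact Ideal.span_singleton_eq_top.2 (Int.isUnit_iff_natAbs_eq.2 h1)
    · exfalso
      obtain ⟨p, hp, hpd⟩ := Nat.exists_prime_and_dvd h1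
      obtain ⟨a, ha, hna⟩ := h p hp
      apply hna
      have h2 : (p : ℤ) ∣ d := Int.natCast_dvd.2 hpd
      have h3 := h2.trans (hdv a)
      simpa [k', ha] using h3
  have h1 : (1 : ℤ) ∈ Ideal.span (Set.range k') := by rw [htop]; trivial
  obtain ⟨c, hc⟩ := Ideal.mem_span_range_iff_exists_fun.1 h1
  refine ⟨fun a => if a.2 ∈ S ∨ a.2 = i0 then 0 else
    (if a.1 = 0 then - c (1, a.2) else c (0, a.2)), ?_, ?_, ?_⟩
  · intro a ha; simp [ha]
  · intro a ha; simp [ha]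
  · rw [← hc, Fintype.sum_prod_type, Fin.sum_univ_two, ← Finset.sum_add_distrib]
    unfold sf
    refine Finset.sum_congr rfl fun j _ => ?_
    by_cases hj : j = i0
    · subst hj; simp [k']
    · by_cases hjS : j ∈ S
      · simp [k', hj, hjS, hk (0, j) hjS, hk (1, j) hjS]
      · simp [k', hj, hjS]; ring

/-- state of the reduction -/
structure ST (M : ℤ) (S : Finset (Fin n)) (i0 : Fin n) (x : HH n) : Prop where
  z : ∀ a, a.2 ∈ S → x a = 0
  c : ∀ a, M ∣ (x - bv (0, i0)) a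
  u : ∃ w, sf x w = 1

/-- `x` is in the orbit of the basis vector -/
def PT (M : ℤ) (S : Finset (Fin n)) (i0 : Fin n) (x : HH n) : Prop :=
  ∃ m ∈ NS M S, m x = bv (0, i0)

section red
variable {M : ℤ} {S : Finset (Fin n)} {i0 : Fin n}

theorem ST.g {x : HH n} (h : ST M S i0 x) {g : AA n} (hg : g ∈ NS 1 S)
    (he : g (bv (0, i0)) = bv (0, i0)) : ST M S i0 (g x) := by
  refine ⟨NS_supp hg h.z, ?_, ?_⟩
  · intro a
    rw [← he, ← map_sub]
    obtain ⟨y, hy⟩ : ∃ y : HH n, x - bv (0, i0) = M • y := by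
      choose y hy using h.c
      exact ⟨y, funext fun a => by rw [hy a]; rfl⟩
    rw [hy, map_smul, Pi.smul_apply, smul_eq_mul]
    exact dvd_mul_right _ _
  · obtain ⟨w, hw⟩ := h.u
    exact ⟨g w, by rw [NS_le_Sp 1 S hg, hw]⟩

theorem ST.m {x : HH n} (h : ST M S i0 x) {m : AA n} (hm : m ∈ NS M S) : ST M S i0 (m x) := by
  refine ⟨NS_supp hm h.z, ?_, ?_⟩
  · intro a
    have e : m x - bv (0, i0) = (m x - x) + (x - bv (0, i0)) := by abel
    rw [e, Pi.add_apply]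
    exact dvd_add (NS_le_CC M S hm x a) (h.c a)
  · obtain ⟨w, hw⟩ := h.u
    exact ⟨m w, by rw [NS_le_Sp M S hm, hw]⟩

theorem PT.m {x : HH n} {m : AA n} (hm : m ∈ NS M S) (h : PT M S i0 (m x)) : PT M S i0 x := by
  obtain ⟨m', hm', e⟩ := h
  exact ⟨m' * m, Subgroup.mul_mem _ hm' hm, e⟩

theorem PT.g {x : HH n} {g : AA n} (hg : g ∈ NS 1 S) (he : g (bv (0, i0)) = bv (0, i0))
    (h : PT M S i0 (g x)) : PT M S i0 x := by
  obtain ⟨m, hm, e⟩ := h
  refine ⟨g⁻¹ * m * g, NS_norm' hg hm, ?_⟩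
  rw [mul_app, mul_app, e]
  conv_lhs => rw [← he]
  exact inv_app _ _

variable (hi0 : i0 ∉ S)
include hi0

theorem red6 {x : HH n} (h : ST M S i0 x) (h1 : x (0, i0) = 1) (h2 : ∀ a, a.2 ≠ i0 → x a = 0) :
    PT M S i0 x := by
  have hM : M ∣ x (1, i0) := by
    have := h.c (1, i0)
    rw [Pi.sub_apply, bv_ne (by simp), sub_zero] at this
    exact this
  refine ⟨tv (bv (1, i0)) (-(x (1, i0))), tv_mem (U_bv hi0) (dvd_neg.2 hM), ?_⟩
  rw [tv_app, sf_f, h1]
  funext a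
  obtain ⟨c, j⟩ := a
  rw [Pi.add_apply, Pi.smul_apply, smul_eq_mul]
  by_cases hj : j = i0
  · subst hj
    fin_cases c
    · show x (0, j) + _ * bv (1, j) (0, j) = bv (0, j) (0, j)
      rw [bv_ne (by simp), bv_same, h1]; ring
    · show x (1, j) + _ * bv (1, j) (1, j) = bv (0, j) (1, j)
      rw [bv_same, bv_ne (by simp)]; ring
  · rw [bv_ne2 hj, bv_ne2 hj, h2 _ hj]; ring

/-- the coordinates outside the block `i0` -/
def rest (i0 : Fin n) (x : HH n) : HH n := fun a => if a.2 = i0 then 0 else x a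

omit hi0 in
theorem rest_dvd {x : HH n} (h : ST M S i0 x) (a : Fin 2 × Fin n) : M ∣ rest i0 x a := by
  unfold rest
  split_ifs with ha
  · exact dvd_zero _
  · have := h.c a
    rwa [Pi.sub_apply, bv_ne2 ha, sub_zero] at this

theorem red5 {x : HH n} (h : ST M S i0 x) (h1 : x (0, i0) = 1) : PT M S i0 x := by
  obtain ⟨m, hm, e⟩ := XN_all (M := M) (S := S) (a0 := (1, i0)) hi0 (-(rest i0 x))
    (by
      intro a ha
      have : a.2 ≠ i0 := fun e => hi0 (e ▸ ha)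
      rw [Pi.neg_apply, rest, if_neg this, h.z a ha, neg_zero])
    (by intro a ha; rw [Pi.neg_apply, rest, if_pos ha, neg_zero])
    (by intro a; rw [Pi.neg_apply, dvd_neg]; exact rest_dvd h a)
  refine PT.m hm (red6 hi0 (h.m hm) ?_ ?_)
  · rw [e, sf_f, h1]
    simp only [Pi.add_apply, Pi.smul_apply, smul_eq_mul, Pi.neg_apply, rest, if_pos]
    rw [bv_ne (by simp), h1]; ring
  · intro a ha
    rw [e, sf_f, h1]
    simp only [Pi.add_apply, Pi.smul_apply, smul_eq_mul, Pi.neg_apply, rest, if_neg ha]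
    rw [bv_ne2 ha]; ring

theorem red4 {x : HH n} (hM : M ≠ 0) (h : ST M S i0 x) (k : HH n)
    (hk : ∀ a, a.2 ≠ i0 → x a = M * k a)
    (hp : ∀ p : ℕ, p.Prime → ∃ a, a.2 ≠ i0 ∧ ¬ (p : ℤ) ∣ k a) : PT M S i0 x := by
  have hkS : ∀ a, a.2 ∈ S → k a = 0 := by
    intro a ha
    have h1 : a.2 ≠ i0 := fun e => hi0 (e ▸ ha)
    have h2 := hk a h1
    rw [h.z a ha] at h2
    rcases mul_eq_zero.1 h2.symm with h3 | h3
    · exact absurd h3 hM
    · exact h3
  obtain ⟨u, hu1, hu2, hu3⟩ := bez S i0 k hkS hp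
  obtain ⟨c, hc⟩ : M ∣ 1 - x (0, i0) := by
    have := h.c (0, i0)
    rw [Pi.sub_apply, bv_same] at this
    rw [← neg_sub, dvd_neg]; exact this
  obtain ⟨m, hm, e⟩ := XN_all (M := 1) (S := S) (a0 := (0, i0)) hi0 (c • u)
    (by intro a ha; rw [Pi.smul_apply, hu1 a ha, smul_zero])
    (by intro a ha; rw [Pi.smul_apply, hu2 a ha, smul_zero])
    (by intro a; exact one_dvd _)
  have he : m (bv (0, i0)) = bv (0, i0) := by
    rw [e, sf_self, sf_smul_right, e_sf, hu2 (1, i0) rfl]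
    simp
  have hs : sf x u = M * sf k u := by
    unfold sf
    rw [Finset.mul_sum]
    refine Finset.sum_congr rfl fun j _ => ?_
    by_cases hj : j = i0
    · subst hj
      rw [hu2 (0, j) rfl, hu2 (1, j) rfl]; ring
    · rw [hk (0, j) hj, hk (1, j) hj]; ring
  refine PT.g hm he (red5 hi0 (h.g hm he) ?_)
  rw [e, sf_smul_right, hs, hu3]
  simp only [Pi.add_apply, Pi.smul_apply, smul_eq_mul]
  rw [hu2 (0, i0) rfl, bv_same]
  linarith

theorem red3 {x : HH n} (hM : M ≠ 0) (h : ST M S i0 x) {i1 : Fin n} (hi1 : i1 ∉ S)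
    (h01 : i1 ≠ i0) (k : HH n) (hk : ∀ a, a.2 ≠ i0 → x a = M * k a) (hk1 : k (0, i1) ≠ 0)
    (hQ : ∀ p : ℕ, p.Prime → (p : ℤ) ∣ x (0, i0) → ∃ a, a.2 ≠ i0 ∧ ¬ (p : ℤ) ∣ k a) :
    PT M S i0 x := by
  obtain ⟨s, hs⟩ := cop (k (1, i1)) (x (0, i0)) (k (0, i1)) hk1
  obtain ⟨m, hm, e⟩ := XN_all (M := M) (S := S) (a0 := (1, i0)) hi0 ((M * s) • bv (1, i1))
    (by
      intro a ha
      have : a.2 ≠ i1 := fun e => hi1 (e ▸ ha)
      rw [Pi.smul_apply, bv_ne2 this, smul_zero])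
    (by
      intro a ha
      have : a.2 ≠ i1 := fun e => h01 (e.symm.trans ha)
      rw [Pi.smul_apply, bv_ne2 this, smul_zero])
    (by intro a; rw [Pi.smul_apply, smul_eq_mul, mul_assoc]; exact dvd_mul_right _ _)
  refine PT.m hm (red4 hi0 hM (h.m hm) (k + (s * x (0, i0)) • bv (1, i1)) ?_ ?_)
  · intro a ha
    rw [e, sf_f]
    simp only [Pi.add_apply, Pi.smul_apply, smul_eq_mul]
    rw [bv_ne2 (a := (1, i0)) ha, hk a ha]; ring
  · intro p hp
    by_contra hcon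
    push Not at hcon
    have hpm : ∀ a, a.2 ≠ i0 → a ≠ (1, i1) → (p : ℤ) ∣ k a := by
      intro a ha hne
      have := hcon a ha
      rw [Pi.add_apply, Pi.smul_apply, bv_ne hne, smul_zero, add_zero] at this
      exact this
    have h3 := hcon (1, i1) h01
    rw [Pi.add_apply, Pi.smul_apply, bv_same, smul_eq_mul, mul_one] at h3
    have h4 := hs p hp (hpm (0, i1) h01 (by simp)) h3
    obtain ⟨a, ha, hna⟩ := hQ p hp h4.2
    apply hna
    by_cases hne : a = (1, i1)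
    · rw [hne]; exact h4.1
    · exact hpm a ha hne

omit hi0 in
theorem not_all_dvd {x : HH n} (h : ∃ w, sf x w = 1) {p : ℕ} (hp : p.Prime)
    (hd : ∀ a, (p : ℤ) ∣ x a) : False := by
  obtain ⟨w, hw⟩ := h
  have h1 : (p : ℤ) ∣ sf x w := by
    unfold sf
    exact Finset.dvd_sum fun j _ => dvd_sub ((hd _).mul_right _) ((hd _).mul_right _)
  rw [hw] at h1
  have h2 : p ∣ 1 := by exact_mod_cast h1
  exact hp.one_lt.ne' (Nat.dvd_one.1 h2)

theorem red2 {x : HH n} (hM : M ≠ 0) (h : ST M S i0 x) {i1 : Fin n} (hi1 : i1 ∉ S)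
    (h01 : i1 ≠ i0) (hx1 : x (0, i1) ≠ 0) : PT M S i0 x := by
  obtain ⟨t, ht⟩ := cop (x (0, i0)) (-(x (1, i0))) (x (0, i1)) hx1
  have hg : tv (bv (0, i0)) t ∈ NS 1 S := tv_mem (U_bv hi0) (one_dvd _)
  have he : tv (bv (0, i0)) t (bv (0, i0)) = bv (0, i0) := by
    rw [tv_app, sf_self, mul_zero, zero_smul, add_zero]
  have hx' : ∀ a, tv (bv (0, i0)) t x a = x a + (t * -(x (1, i0))) * bv (0, i0) a := by
    intro a
    rw [tv_app, sf_e, Pi.add_apply, Pi.smul_apply, smul_eq_mul]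
  have hk : ∀ a, a.2 ≠ i0 → tv (bv (0, i0)) t x a = M * (tv (bv (0, i0)) t x a / M) := by
    intro a ha
    have := (h.g hg he).c a
    rw [Pi.sub_apply, bv_ne2 ha, sub_zero] at this
    exact (Int.mul_ediv_cancel' this).symm
  refine PT.g hg he (red3 hi0 hM (h.g hg he) hi1 h01
    (fun a => tv (bv (0, i0)) t x a / M) hk ?_ ?_)
  · intro h0
    have h1 := hk (0, i1) h01
    have h0' : tv (bv (0, i0)) t x (0, i1) / M = 0 := h0
    rw [h0', mul_zero, hx', bv_ne2 h01, mul_zero, add_zero] at h1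
    exact hx1 h1
  · intro p hp hpd
    by_contra hcon
    push Not at hcon
    have h2 : ∀ a, a.2 ≠ i0 → (p : ℤ) ∣ x a := by
      intro a ha
      have h3 := hk a ha
      rw [hx', bv_ne2 ha, mul_zero, add_zero] at h3
      rw [h3]
      have h4 := hcon a ha
      rw [hx', bv_ne2 ha, mul_zero, add_zero] at h4
      exact h4.mul_left _
    rw [hx', bv_same, mul_one] at hpd
    have h5 := ht p hp (h2 (0, i1) h01) hpd
    refine not_all_dvd h.u hp fun a => ?_
    by_cases ha : a.2 = i0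
    · obtain ⟨c, j⟩ := a
      simp only at ha
      subst ha
      fin_cases c
      · exact h5.1
      · exact dvd_neg.1 h5.2
    · exact h2 a ha

theorem red1 {x : HH n} (hM : M ≠ 0) (h : ST M S i0 x) {i1 : Fin n} (hi1 : i1 ∉ S)
    (h01 : i1 ≠ i0) (hx0 : x (0, i0) ≠ 0) : PT M S i0 x := by
  by_cases hx1 : x (0, i1) ≠ 0
  · exact red2 hi0 hM h hi1 h01 hx1
  · rw [not_not] at hx1
    obtain ⟨m, hm, e⟩ := XN_all (M := M) (S := S) (a0 := (1, i0)) hi0 (M • bv (0, i1))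
      (by
        intro a ha
        have : a.2 ≠ i1 := fun e => hi1 (e ▸ ha)
        rw [Pi.smul_apply, bv_ne2 this, smul_zero])
      (by
        intro a ha
        have : a.2 ≠ i1 := fun e => h01 (e.symm.trans ha)
        rw [Pi.smul_apply, bv_ne2 this, smul_zero])
      (by intro a; rw [Pi.smul_apply, smul_eq_mul]; exact dvd_mul_right _ _)
    refine PT.m hm (red2 hi0 hM (h.m hm) hi1 h01 ?_)
    rw [e, sf_f]
    simp only [Pi.add_apply, Pi.smul_apply, smul_eq_mul]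
    rw [hx1, bv_same, bv_ne2 (a := (1, i0)) h01]
    simp only [mul_one, zero_add, mul_zero, add_zero]
    exact mul_ne_zero hx0 hM

/-- TRANSITIVITY on the unimodular vectors congruent to the basis vector -/
theorem red0 {x : HH n} (hM : M ≠ 0) (h : ST M S i0 x) {i1 : Fin n} (hi1 : i1 ∉ S)
    (h01 : i1 ≠ i0) : PT M S i0 x := by
  by_cases hx0 : x (0, i0) ≠ 0
  · exact red1 hi0 hM h hi1 h01 hx0
  rw [not_not] at hx0
  by_cases hx1 : x (1, i0) ≠ 0
  · have hg : tv (bv (0, i0)) 1 ∈ NS 1 S := tv_mem (U_bv hi0) (one_dvd _)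
    have he : tv (bv (0, i0)) 1 (bv (0, i0)) = bv (0, i0) := by
      rw [tv_app, sf_self, mul_zero, zero_smul, add_zero]
    refine PT.g hg he (red1 hi0 hM (h.g hg he) hi1 h01 ?_)
    rw [tv_app, sf_e, Pi.add_apply, Pi.smul_apply, smul_eq_mul, bv_same, hx0]
    simpa using hx1
  rw [not_not] at hx1
  -- some coordinate is not zero
  obtain ⟨a, ha⟩ : ∃ a, x a ≠ 0 := by
    by_contra hcon
    push Not at hcon
    obtain ⟨w, hw⟩ := h.u
    have : x = 0 := funext hcon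
    rw [this, sf_zero_left] at hw
    exact absurd hw (by norm_num)
  have haS : a.2 ∉ S := fun h' => ha (h.z a h')
  have ha0 : a.2 ≠ i0 := by
    intro h'
    obtain ⟨c, j⟩ := a
    simp only at h'
    subst h'
    fin_cases c
    · exact ha hx0
    · exact ha hx1
  obtain ⟨w, hw1, hw2, hw3⟩ : ∃ w : HH n, (∀ a, a.2 ∈ S → w a = 0) ∧ (∀ a, a.2 = i0 → w a = 0) ∧
      sf x w ≠ 0 := by
    obtain ⟨c, j⟩ := a
    fin_cases c
    · refine ⟨bv (1, j), fun b hb => bv_ne2 fun e => haS (e ▸ hb),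
        fun b hb => bv_ne2 fun e => ha0 (e.symm.trans hb), ?_⟩
      rw [sf_f]; exact ha
    · refine ⟨bv (0, j), fun b hb => bv_ne2 fun e => haS (e ▸ hb),
        fun b hb => bv_ne2 fun e => ha0 (e.symm.trans hb), ?_⟩
      rw [sf_e]; exact neg_ne_zero.2 ha
  obtain ⟨m, hm, e⟩ := XN_all (M := 1) (S := S) (a0 := (0, i0)) hi0 w hw1 hw2
    (fun a => one_dvd _)
  have he : m (bv (0, i0)) = bv (0, i0) := by
    rw [e, sf_self, e_sf, hw2 (1, i0) rfl]
    simp
  refine PT.g hm he (red1 hi0 hM (h.g hm he) hi1 h01 ?_)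
  rw [e]
  simp only [Pi.add_apply, Pi.smul_apply, smul_eq_mul]
  rw [hx0, hw2 (0, i0) rfl, bv_same]
  simpa using hw3

end red

end Pool.Agent.TOR.FI
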