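import Pool.Agent.Helper29_TOR.Fi2

/-! TOR, part (a): the integral symplectic group is generated by the transvections. -/

set_option autoImplicit false

namespace Pool.Agent.TOR.FI

open Pool.Agent.TOR.H29

open scoped BigOperators

variable {n : ℕ}

theorem NS_fix {M : ℤ} {S : Finset (Fin n)} {g : AA n} (hg : g ∈ NS M S) {y : HH n}
    (hy : ∀ a, a.2 ∉ S → y a = 0) : g y = y := by
  let K : Subgroup (AA n) :=
    { carrier := {φ | φ y = y}
      mul_mem' := by
        intro φ ψ h1 h2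
        show φ (ψ y) = y
        rw [show ψ y = y from h2]; exact h1
      one_mem' := rfl
      inv_mem' := by
        intro φ h
        show φ⁻¹ y = y
        conv_lhs => rw [← show φ y = y from h]
        exact inv_app _ _ }
  have : NS M S ≤ K := by
    refine NS_le fun v hv => ?_
    show tv v M y = y
    rw [tv_app, sf_supp (fun j => ?_)]
    · simp
    by_cases hj : j ∈ S
    · exact Or.inr fun c => hv.1 (c, j) hj
    · exact Or.inl fun c => hy (c, j) hj
  exact this hg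

/-- automorphisms which fix the blocks of `S` map the other blocks to vectors outside `S` -/
theorem fix_supp {S : Finset (Fin n)} {φ : AA n} (hφ : φ ∈ Sp n)
    (hS : ∀ a, a.2 ∈ S → φ (bv a) = bv a) {x : HH n} (hx : ∀ a, a.2 ∈ S → x a = 0) :
    ∀ a, a.2 ∈ S → φ x a = 0 := by
  rintro ⟨c, j⟩ hj
  have h1 : ∀ c' : Fin 2, sf (φ x) (bv (c', j)) = sf x (bv (c', j)) := by
    intro c'
    conv_lhs => rw [← hS (c', j) hj]
    exact hφ _ _
  fin_cases c
  · have := h1 1
    rw [sf_f, sf_f, hx (0, j) hj] at this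
    exact this
  · have := h1 0
    rw [sf_e, sf_e, hx (1, j) hj, neg_zero] at this
    exact neg_eq_zero.1 this

theorem bv_supp {S : Finset (Fin n)} {a : Fin 2 × Fin n} (ha : a.2 ∉ S) :
    ∀ b, b.2 ∈ S → bv a b = 0 := fun _ hb => bv_ne2 fun e => ha (e ▸ hb)

/-- second half of a reduction step -/
theorem half2 {S : Finset (Fin n)} {i0 : Fin n} (hi0 : i0 ∉ S) {φ : AA n} (hφ : φ ∈ Sp n)
    (hS : ∀ a, a.2 ∈ S → φ (bv a) = bv a) (he : φ (bv (0, i0)) = bv (0, i0)) :
    ∃ m ∈ NS 1 S, ∀ a, a.2 ∈ insert i0 S → (m * φ) (bv a) = bv a := by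
  set y : HH n := φ (bv (1, i0)) with hy
  have hyS : ∀ a, a.2 ∈ S → y a = 0 := fix_supp hφ hS (bv_supp hi0)
  have hy1 : y (1, i0) = 1 := by
    rw [← e_sf i0 y, hy]
    conv_lhs => rw [← he]
    rw [hφ, e_sf, bv_same]
  obtain ⟨m, hm, e⟩ := XN_all (M := 1) (S := S) (a0 := (0, i0)) hi0 (rest i0 y)
    (by
      intro a ha
      have : a.2 ≠ i0 := fun e => hi0 (e ▸ ha)
      rw [rest, if_neg this, hyS a ha])
    (by intro a ha; rw [rest, if_pos ha])
    (by intro a; exact one_dvd _)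
  have hrest : sf y (rest i0 y) = 0 := by
    unfold sf
    refine Finset.sum_eq_zero fun j _ => ?_
    unfold rest
    by_cases hj : j = i0
    · subst hj; simp
    · simp only [hj, if_false]; ring
  have hme : m (bv (0, i0)) = bv (0, i0) := by
    rw [e, sf_self, e_sf]
    have : rest i0 y (1, i0) = 0 := by unfold rest; simp
    rw [this]; simp
  have hmy : m y = y - rest i0 y := by
    rw [e, hrest, sf_e, hy1]; module
  have hte : tv (bv (0, i0)) (y (0, i0)) (bv (0, i0)) = bv (0, i0) := by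
    rw [tv_app, sf_self, mul_zero, zero_smul, add_zero]
  have hty : tv (bv (0, i0)) (y (0, i0)) (y - rest i0 y) = bv (1, i0) := by
    rw [tv_app, sf_e]
    funext a
    obtain ⟨c, j⟩ := a
    by_cases hj : j = i0
    · subst hj
      have h0 : ∀ c : Fin 2, rest j y (c, j) = 0 := fun c => by unfold rest; simp
      fin_cases c
      · simp only [Fin.zero_eta, Pi.add_apply, Pi.sub_apply, Pi.smul_apply, smul_eq_mul, h0, hy1]
        rw [bv_same, bv_ne (by simp)]; ring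
      · simp only [Fin.mk_one, Pi.add_apply, Pi.sub_apply, Pi.smul_apply, smul_eq_mul, h0, hy1]
        rw [bv_same, bv_ne (by simp)]; ring
    · simp only [Pi.add_apply, Pi.sub_apply, Pi.smul_apply, smul_eq_mul, rest, hj, if_false]
      rw [bv_ne2 hj, bv_ne2 hj]; ring
  refine ⟨tv (bv (0, i0)) (y (0, i0)) * m,
    Subgroup.mul_mem _ (tv_mem (U_bv hi0) (one_dvd _)) hm, ?_⟩
  intro a ha
  rw [Finset.mem_insert] at ha
  rcases ha with ha | ha
  · obtain ⟨c, j⟩ := a
    simp only at ha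
    subst ha
    fin_cases c
    · show tv (bv (0, j)) (y (0, j)) (m (φ (bv (0, j)))) = bv (0, j)
      rw [he, hme, hte]
    · show tv (bv (0, j)) (y (0, j)) (m (φ (bv (1, j)))) = bv (1, j)
      rw [← hy, hmy, hty]
  · rw [mul_app, hS a ha]
    refine NS_fix (M := 1) (S := S) (Subgroup.mul_mem _ (tv_mem (U_bv hi0) (one_dvd _)) hm) ?_
    intro b hb
    exact bv_ne2 fun e => hb (e ▸ ha)

theorem fixstep {S : Finset (Fin n)} {i0 i1 : Fin n} (hi0 : i0 ∉ S) (hi1 : i1 ∉ S)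
    (h01 : i1 ≠ i0) {φ : AA n} (hφ : φ ∈ Sp n) (hS : ∀ a, a.2 ∈ S → φ (bv a) = bv a) :
    ∃ m ∈ NS 1 S, ∀ a, a.2 ∈ insert i0 S → (m * φ) (bv a) = bv a := by
  have hST : ST 1 S i0 (φ (bv (0, i0))) := by
    refine ⟨fix_supp hφ hS (bv_supp hi0), fun a => one_dvd _, φ (bv (1, i0)), ?_⟩
    rw [hφ, e_sf, bv_same]
  obtain ⟨m1, hm1, e1⟩ := red0 hi0 one_ne_zero hST hi1 h01
  have hφ1 : m1 * φ ∈ Sp n := Subgroup.mul_mem _ (NS_le_Sp 1 S hm1) hφ
  have hS1 : ∀ a, a.2 ∈ S → (m1 * φ) (bv a) = bv a := by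
    intro a ha
    rw [mul_app, hS a ha]
    exact NS_fix hm1 fun b hb => bv_ne2 fun e => hb (e ▸ ha)
  obtain ⟨m2, hm2, e2⟩ := half2 hi0 hφ1 hS1 (by rw [mul_app, e1])
  exact ⟨m2 * m1, Subgroup.mul_mem _ hm2 hm1, fun a ha => by
    rw [mul_assoc]; exact e2 a ha⟩

theorem fixall (j : Fin n) (s : Finset (Fin n)) (hj : j ∉ s) {φ : AA n} (hφ : φ ∈ Sp n) :
    ∃ m ∈ NS 1 (∅ : Finset (Fin n)), ∀ a, a.2 ∈ s → (m * φ) (bv a) = bv a := by
  induction s using Finset.induction_on with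
  | empty => exact ⟨1, Subgroup.one_mem _, fun a ha => absurd ha (Finset.notMem_empty _)⟩
  | insert i0 s hi0 ih =>
    rw [Finset.mem_insert, not_or] at hj
    obtain ⟨m, hm, e⟩ := ih hj.2
    have hφ1 : m * φ ∈ Sp n := Subgroup.mul_mem _ (NS_le_Sp 1 _ hm) hφ
    obtain ⟨m2, hm2, e2⟩ := fixstep hi0 hj.2 hj.1 hφ1 e
    exact ⟨m2 * m, Subgroup.mul_mem _ (NS_anti 1 (Finset.empty_subset s) hm2) hm, fun a ha => by
      rw [mul_assoc]; exact e2 a ha⟩

/-- Euclid in one block -/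
theorem euc (j : Fin n) : ∀ (N : ℕ) (x : HH n), (∀ a, a.2 ≠ j → x a = 0) →
    (∃ y, sf x y = 1) → (x (1, j)).natAbs ≤ N →
    ∃ m ∈ NS 1 (Finset.univ.erase j), m x = bv (0, j) := by
  have hj : j ∉ Finset.univ.erase j := Finset.notMem_erase _ _
  have te : ∀ t, tv (bv (0, j)) t ∈ NS 1 (Finset.univ.erase j) := fun t =>
    tv_mem (U_bv hj) (one_dvd _)
  have tf : ∀ t, tv (bv (1, j)) t ∈ NS 1 (Finset.univ.erase j) := fun t =>
    tv_mem (U_bv hj) (one_dvd _)
  -- the rotation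
  let s : AA n := tv (bv (0, j)) 1 * tv (bv (1, j)) 1 * tv (bv (0, j)) 1
  have hs : s ∈ NS 1 (Finset.univ.erase j) :=
    Subgroup.mul_mem _ (Subgroup.mul_mem _ (te 1) (tf 1)) (te 1)
  have e00 : bv (0, j) (0, j) = 1 := bv_same _
  have e11 : bv (1, j) (1, j) = 1 := bv_same _
  have e01 : (bv (0, j) : HH n) (1, j) = 0 := bv_ne (by simp)
  have e10 : (bv (1, j) : HH n) (0, j) = 0 := bv_ne (by simp)
  have hs0 : ∀ x : HH n, s x (0, j) = - x (1, j) := by
    intro x
    show tv (bv (0, j)) 1 (tv (bv (1, j)) 1 (tv (bv (0, j)) 1 x)) (0, j) = _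
    simp only [tv_app, sf_e, sf_f, Pi.add_apply, Pi.smul_apply, smul_eq_mul, e00, e11, e01, e10]
    ring
  have hs1 : ∀ x : HH n, s x (1, j) = x (0, j) := by
    intro x
    show tv (bv (0, j)) 1 (tv (bv (1, j)) 1 (tv (bv (0, j)) 1 x)) (1, j) = _
    simp only [tv_app, sf_e, sf_f, Pi.add_apply, Pi.smul_apply, smul_eq_mul, e00, e11, e01, e10]
    ring
  have supp : ∀ {m : AA n}, m ∈ NS 1 (Finset.univ.erase j) → ∀ {x : HH n},
      (∀ a, a.2 ≠ j → x a = 0) → ∀ a, a.2 ≠ j → m x a = 0 := by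
    intro m hm x hx a ha
    exact NS_supp hm (fun b hb => hx b (Finset.ne_of_mem_erase hb)) a
      (Finset.mem_erase.2 ⟨ha, Finset.mem_univ _⟩)
  have uni : ∀ {m : AA n}, m ∈ NS 1 (Finset.univ.erase j) → ∀ {x : HH n}, (∃ y, sf x y = 1) →
      ∃ y, sf (m x) y = 1 := by
    rintro m hm x ⟨y, hy⟩
    exact ⟨m y, by rw [NS_le_Sp 1 _ hm, hy]⟩
  have ext : ∀ {x : HH n}, (∀ a, a.2 ≠ j → x a = 0) → x (0, j) = 1 → x (1, j) = 0 →
      x = bv (0, j) := by
    intro x hx h0 h1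
    funext a
    obtain ⟨c, i⟩ := a
    by_cases hi : i = j
    · subst hi
      fin_cases c
      · exact h0.trans e00.symm
      · exact h1.trans e01.symm
    · rw [hx _ hi, bv_ne2 hi]
  -- the case of the second coordinate zero
  have base : ∀ x : HH n, (∀ a, a.2 ≠ j → x a = 0) → (∃ y, sf x y = 1) → x (1, j) = 0 →
      ∃ m ∈ NS 1 (Finset.univ.erase j), m x = bv (0, j) := by
    rintro x hx ⟨y, hy⟩ h0
    have h1 : x (0, j) * y (1, j) = 1 := by
      rw [← hy]
      unfold sf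
      rw [Finset.sum_eq_single j]
      · rw [h0]; ring
      · intro b _ hb
        rw [hx (0, b) hb, hx (1, b) hb]; ring
      · intro h; exact absurd (Finset.mem_univ j) h
    rcases Int.isUnit_iff.1 (IsUnit.of_mul_eq_one _ h1) with h2 | h2
    · exact ⟨1, Subgroup.one_mem _, ext hx h2 h0⟩
    · refine ⟨s * s, Subgroup.mul_mem _ hs hs, ?_⟩
      rw [mul_app]
      refine ext (supp hs (supp hs hx)) ?_ ?_
      · rw [hs0, hs1, h2]; rfl
      · rw [hs1, hs0, h0]; rfl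
  intro N
  induction N with
  | zero =>
    intro x hx hu h
    exact base x hx hu (by simpa using h)
  | succ N ih =>
    intro x hx hu h
    by_cases h0 : x (1, j) = 0
    · exact base x hx hu h0
    have a1 := te (x (0, j) / x (1, j))
    have h2 : tv (bv (0, j)) (x (0, j) / x (1, j)) x (0, j) = x (0, j) % x (1, j) := by
      simp only [tv_app, sf_e, Pi.add_apply, Pi.smul_apply, smul_eq_mul, e00]
      have := Int.emod_add_mul_ediv (x (0, j)) (x (1, j))
      linarith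
    have a2 : s * tv (bv (0, j)) (x (0, j) / x (1, j)) ∈ NS 1 (Finset.univ.erase j) :=
      Subgroup.mul_mem _ hs a1
    obtain ⟨m, hm, e⟩ := ih ((s * tv (bv (0, j)) (x (0, j) / x (1, j))) x) (supp a2 hx)
      (uni a2 hu) (by
        rw [mul_app, hs1, h2]
        have b1 := Int.emod_nonneg (x (0, j)) h0
        have b2 := Int.emod_lt_abs (x (0, j)) h0
        rw [Int.abs_eq_natAbs] at b2
        omega)
    exact ⟨m * (s * tv (bv (0, j)) (x (0, j) / x (1, j))), Subgroup.mul_mem _ hm a2, e⟩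

theorem ext_bv {φ : AA n} (h : ∀ a, φ (bv a) = bv a) : φ = 1 := by
  apply aa_ext; intro x
  rw [one_app]
  have hx : x = ∑ a, x a • bv a := by
    funext b
    rw [Finset.sum_apply, Finset.sum_eq_single b]
    · rw [Pi.smul_apply, bv_same, smul_eq_mul, mul_one]
    · intro a _ hab
      rw [Pi.smul_apply, bv_ne hab.symm, smul_zero]
    · intro h; exact absurd (Finset.mem_univ b) h
  conv_lhs => rw [hx]
  rw [map_sum]
  conv_rhs => rw [hx]
  exact Finset.sum_congr rfl fun a _ => by rw [map_smul, h]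

/-- the symplectic group is generated by the transvections -/
theorem Sp_eq (hn : 0 < n) : Sp n = NS 1 (∅ : Finset (Fin n)) := by
  refine le_antisymm ?_ (NS_le_Sp 1 ∅)
  intro φ hφ
  let j : Fin n := ⟨0, hn⟩
  have hj : j ∉ Finset.univ.erase j := Finset.notMem_erase _ _
  obtain ⟨m, hm, e⟩ := fixall j (Finset.univ.erase j) hj hφ
  have hφ1 : m * φ ∈ Sp n := Subgroup.mul_mem _ (NS_le_Sp 1 _ hm) hφ
  have hsup := fix_supp hφ1 e (bv_supp (a := (0, j)) hj)
  obtain ⟨m2, hm2, e2⟩ := euc j _ ((m * φ) (bv (0, j)))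
    (fun a ha => hsup a (Finset.mem_erase.2 ⟨ha, Finset.mem_univ _⟩))
    ⟨(m * φ) (bv (1, j)), by rw [hφ1, e_sf, bv_same]⟩ le_rfl
  have hφ2 : m2 * (m * φ) ∈ Sp n := Subgroup.mul_mem _ (NS_le_Sp 1 _ hm2) hφ1
  have hS2 : ∀ a, a.2 ∈ Finset.univ.erase j → (m2 * (m * φ)) (bv a) = bv a := by
    intro a ha
    rw [mul_app, e a ha]
    exact NS_fix hm2 fun b hb => bv_ne2 fun e => hb (e ▸ ha)
  obtain ⟨m3, hm3, e3⟩ := half2 hj hφ2 hS2 (by rw [mul_app, e2])
  have h1 : m3 * (m2 * (m * φ)) = 1 := by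
    apply ext_bv
    intro a
    apply e3
    rw [Finset.insert_erase (Finset.mem_univ j)]
    exact Finset.mem_univ _
  have h3 : m3 * m2 * m ∈ NS 1 (∅ : Finset (Fin n)) :=
    Subgroup.mul_mem _ (Subgroup.mul_mem _ (NS_anti 1 (Finset.empty_subset _) hm3)
      (NS_anti 1 (Finset.empty_subset _) hm2)) hm
  have h4 : φ = (m3 * m2 * m)⁻¹ := by
    apply eq_inv_of_mul_eq_one_right
    rw [mul_assoc, mul_assoc]; exact h1
  rw [h4]
  exact Subgroup.inv_mem _ h3

end Pool.Agent.TOR.FI
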