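import Pool.Agent.Helper29_TOR.Fi3

/-! TOR, part (a): the normal closure of the power of a transvection has finite index in the
integral symplectic group. -/

set_option autoImplicit false

namespace Pool.Agent.TOR.FI

open Pool.Agent.TOR.H29

open scoped BigOperators commutatorElement

theorem flipc {G : Type*} [Group G] {a b c : G}
    (h : b * a * b⁻¹ * a⁻¹ = c * a * c⁻¹ * a⁻¹) : a * b * a⁻¹ * b⁻¹ = a * c * a⁻¹ * c⁻¹ := by
  have := congrArg (fun z => z⁻¹) h
  simpa [mul_assoc] using this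

/-- Schur's theorem in the form needed here -/
theorem schur_index {A : Type*} [Group A] (G N : Subgroup A)
    (hnorm : ∀ g ∈ G, ∀ m ∈ N, g * m * g⁻¹ ∈ N) (hper : G ≤ ⁅G, G⁆) {F : Type*} [Finite F]
    (r : A → F) (hc : ∀ h ∈ G, ∀ h' ∈ G, r h = r h' → ∀ k ∈ G,
      (h' * h⁻¹) * k * (h' * h⁻¹)⁻¹ * k⁻¹ ∈ N) : (N.subgroupOf G).FiniteIndex := by
  classical
  have hn : (N.subgroupOf G).Normal := by
    refine ⟨fun m hm g => ?_⟩
    rw [Subgroup.mem_subgroupOf] at hm ⊢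
    exact hnorm g g.2 m hm
  let Q := G ⧸ N.subgroupOf G
  let π : G →* Q := QuotientGroup.mk' _
  have hπ : Function.Surjective π := QuotientGroup.mk'_surjective _
  have one : ∀ g : G, (g : A) ∈ N → π g = 1 := fun g hg =>
    (QuotientGroup.eq_one_iff g).2 (Subgroup.mem_subgroupOf.2 hg)
  have dep : ∀ h h' : G, r h = r h' → ∀ q : Q,
      π h' * q * (π h')⁻¹ * q⁻¹ = π h * q * (π h)⁻¹ * q⁻¹ := by
    intro h h' hr q
    have cen : ∀ k : G, π (h' * h⁻¹) * π k * (π (h' * h⁻¹))⁻¹ * (π k)⁻¹ = 1 := by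
      intro k
      rw [← map_inv, ← map_inv, ← map_mul, ← map_mul, ← map_mul]
      exact one _ (hc h h.2 h' h'.2 hr k k.2)
    obtain ⟨k, rfl⟩ := hπ q
    have e1 := cen (h * k * h⁻¹)
    simp only [map_mul, map_inv] at e1
    rw [mul_inv_eq_one] at e1
    have e2 : π h' * π k * (π h')⁻¹ = π h * π k * (π h)⁻¹ := by
      rw [← e1]; group
    rw [e2]
  let val : F × F → Q := fun p =>
    if h : ∃ hk : G × G, r hk.1 = p.1 ∧ r hk.2 = p.2 then
      π h.choose.1 * π h.choose.2 * (π h.choose.1)⁻¹ * (π h.choose.2)⁻¹ else 1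
  have hfin : (commutatorSet Q).Finite := by
    refine (Set.finite_range val).subset ?_
    rintro x ⟨g1, g2, rfl⟩
    obtain ⟨h, rfl⟩ := hπ g1
    obtain ⟨k, rfl⟩ := hπ g2
    have hex : ∃ hk : G × G, r hk.1 = r h ∧ r hk.2 = r k := ⟨(h, k), rfl, rfl⟩
    refine ⟨(r h, r k), ?_⟩
    show (if h' : ∃ hk : G × G, r hk.1 = r h ∧ r hk.2 = r k then _ else _) = _
    rw [dif_pos hex]
    obtain ⟨e1, e2⟩ := hex.choose_spec
    rw [commutatorElement_def, ← dep _ _ e1 _]
    have e3 := dep _ _ e2 (π h)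
    exact (flipc e3).symm
  have hf : Finite (commutatorSet Q) := hfin.to_subtype
  have hcf : Finite (_root_.commutator Q) := inferInstance
  have htop : _root_.commutator G = ⊤ := by
    have h1 := Subgroup.map_subtype_commutator G
    rw [eq_top_iff]
    intro g _
    have h2 : (g : A) ∈ ⁅G, G⁆ := hper g.2
    rw [← h1] at h2
    obtain ⟨g', hg', e⟩ := h2
    have : g' = g := Subtype.ext e
    rwa [this] at hg'
  have htopQ : _root_.commutator Q = ⊤ := by
    rw [eq_top_iff]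
    intro q _
    obtain ⟨g, rfl⟩ := hπ q
    have h1 : g ∈ _root_.commutator G := by rw [htop]; trivial
    have h2 : π g ∈ (_root_.commutator G).map π := ⟨g, h1, rfl⟩
    rw [commutator_def, Subgroup.map_commutator] at h2
    exact Subgroup.commutator_mono le_top le_top h2
  have hQ : Finite Q := by
    rw [htopQ] at hcf
    exact Finite.of_equiv _ Subgroup.topEquiv.toEquiv
  exact Subgroup.finiteIndex_of_finite_quotient

variable {n : ℕ}

/-- the group generated by the transvections is transitive on the unimodular vectors -/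
theorem trans_uni (i0 i1 : Fin n) (h01 : i1 ≠ i0) {v w : HH n} (hv : ∃ y, sf v y = 1)
    (hw : ∃ y, sf w y = 1) : ∃ g ∈ NS 1 (∅ : Finset (Fin n)), g v = w := by
  have st : ∀ {x : HH n}, (∃ y, sf x y = 1) → ST 1 ∅ i0 x := fun hx =>
    ⟨fun a ha => absurd ha (Finset.notMem_empty _), fun a => one_dvd _, hx⟩
  obtain ⟨m1, hm1, e1⟩ := red0 (Finset.notMem_empty i0) one_ne_zero (st hv)
    (Finset.notMem_empty i1) h01
  obtain ⟨m2, hm2, e2⟩ := red0 (Finset.notMem_empty i0) one_ne_zero (st hw)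
    (Finset.notMem_empty i1) h01
  refine ⟨m2⁻¹ * m1, Subgroup.mul_mem _ (Subgroup.inv_mem _ hm2) hm1, ?_⟩
  rw [mul_app, e1, ← e2, inv_app]

theorem U_empty {v : HH n} (hv : ∃ y, sf v y = 1) : U ∅ v :=
  ⟨fun a ha => absurd ha (Finset.notMem_empty _), hv⟩

/-- the commutator subgroup contains the quotients of two transvections -/
theorem tv_comm (i0 i1 : Fin n) (h01 : i1 ≠ i0) {v w : HH n} (hv : ∃ y, sf v y = 1)
    (hw : ∃ y, sf w y = 1) (c : ℤ) : (tv v c)⁻¹ * tv w c ∈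
      ⁅NS 1 (∅ : Finset (Fin n)), NS 1 (∅ : Finset (Fin n))⁆ := by
  obtain ⟨g, hg, e⟩ := trans_uni i0 i1 h01 hv hw
  have h1 : tv w c = g * tv v c * g⁻¹ := by
    rw [tv_conj (NS_le_Sp 1 _ hg), e]
  have h2 : (tv v c)⁻¹ * tv w c = ⁅(tv v c)⁻¹, g⁆ := by
    rw [h1, commutatorElement_def, inv_inv]
    group
  rw [h2]
  exact Subgroup.commutator_mem_commutator
    (Subgroup.inv_mem _ (tv_mem (U_empty hv) (one_dvd _))) hg

/-- the group generated by the transvections is perfect -/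
theorem perfect (hn : 3 ≤ n) : NS 1 (∅ : Finset (Fin n)) ≤
    ⁅NS 1 (∅ : Finset (Fin n)), NS 1 (∅ : Finset (Fin n))⁆ := by
  set G := NS 1 (∅ : Finset (Fin n)) with hG
  let i0 : Fin n := ⟨0, by omega⟩
  let i1 : Fin n := ⟨1, by omega⟩
  let i2 : Fin n := ⟨2, by omega⟩
  have n01 : i1 ≠ i0 := by intro h; have := congrArg Fin.val h; simp [i0, i1] at this
  have n02 : i2 ≠ i0 := by intro h; have := congrArg Fin.val h; simp [i0, i2] at this
  have n12 : i2 ≠ i1 := by intro h; have := congrArg Fin.val h; simp [i1, i2] at this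
  have he : ∀ i : Fin n, i ∉ (∅ : Finset (Fin n)) := fun i => Finset.notMem_empty i
  set a : HH n := bv (0, i0) with ha
  set b : HH n := bv (0, i1) with hb
  set c : HH n := bv (0, i2) with hc
  set d : HH n := bv (1, i2) with hd
  have o : ∀ {p q : Fin 2 × Fin n}, p.2 ≠ q.2 → sf (bv p) (bv q) = 0 := by
    intro p q h
    refine sf_bv_zero fun r hr => bv_ne2 ?_
    rw [hr]; exact h
  have ab : sf a b = 0 := o (Ne.symm n01)
  have ba : sf b a = 0 := o n01
  have ac : sf a c = 0 := o (Ne.symm n02)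
  have ca : sf c a = 0 := o n02
  have ad : sf a d = 0 := o (Ne.symm n02)
  have da : sf d a = 0 := o n02
  have bc : sf b c = 0 := o (Ne.symm n12)
  have cb : sf c b = 0 := o n12
  have bd : sf b d = 0 := o (Ne.symm n12)
  have db : sf d b = 0 := o n12
  have cd : sf c d = 1 := by rw [hc, hd, e_sf, bv_same]
  have dc : sf d c = -1 := by rw [sf_swap, cd]
  have xs : ∀ {p q : Fin 2 × Fin n}, p.2 ≠ q.2 → XN G (bv p) (bv q) := by
    intro p q h
    have := XN_single (M := 1) (U_bv (he p.2)) (U_bv (he q.2)) (U_bv_add (he p.2) (he q.2) h)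
      (o h) (one_dvd 1)
    rwa [one_smul] at this
  obtain ⟨A, hA, eA⟩ : XN G a c := xs (Ne.symm n02)
  obtain ⟨B, hB, eB⟩ : XN G b d := xs (Ne.symm n12)
  obtain ⟨C, hC, eC⟩ : XN G a b := xs (Ne.symm n01)
  have e1 : C * (A * B) = B * A := by
    apply aa_ext; intro x
    simp only [mul_app, eA, eB, eC, sf_add_left, sf_smul_left, sf_self, ab, ba, ac, ca, ad, da,
      bc, cb, bd, db, cd, dc]
    module
  have hCc : C ∈ ⁅G, G⁆ := by
    have : C = ⁅B, A⁆ := by
      rw [commutatorElement_def, eq_mul_inv_iff_mul_eq, eq_mul_inv_iff_mul_eq, mul_assoc]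
      exact e1
    rw [this]
    exact Subgroup.commutator_mem_commutator hB hA
  have e2 : tv (a + b) 1 = tv a 1 * (tv b 1 * C) := by
    apply aa_ext; intro x
    simp only [mul_app, eC, tv_app, sf_add_left, sf_add_right, sf_smul_left, sf_self, ab, ba]
    module
  have ua : ∃ y, sf a y = 1 := (U_bv (he i0)).2
  have ub : ∃ y, sf b y = 1 := (U_bv (he i1)).2
  have uab : ∃ y, sf (a + b) y = 1 := (U_bv_add (he i0) (he i1) (Ne.symm n01)).2
  have hb1 : tv b 1 ∈ ⁅G, G⁆ := by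
    have h1 := tv_comm i0 i1 n01 ua uab 1
    rw [e2, inv_mul_cancel_left] at h1
    exact (Subgroup.mul_mem_cancel_right _ hCc).1 h1
  refine NS_le fun v hv => ?_
  have h1 := tv_comm i0 i1 n01 ub hv.2 1
  exact (Subgroup.mul_mem_cancel_left _ (Subgroup.inv_mem _ hb1)).1 h1

/-- the congruence subgroup centralizes the group of the transvections modulo `NS M ∅` -/
theorem central {M : ℤ} (hM : M ≠ 0) (i0 i1 : Fin n) (h01 : i1 ≠ i0) {γ : AA n} (hγ : γ ∈ Sp n)
    (hγM : γ ∈ CC n M) {h : AA n} (hh : h ∈ NS 1 (∅ : Finset (Fin n))) :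
    γ * h * γ⁻¹ * h⁻¹ ∈ NS M (∅ : Finset (Fin n)) := by
  have gen : ∀ {γ : AA n}, γ ∈ Sp n → γ ∈ CC n M → ∀ {v : HH n}, (∃ y, sf v y = 1) →
      γ * tv v 1 * γ⁻¹ * (tv v 1)⁻¹ ∈ NS M (∅ : Finset (Fin n)) := by
    intro γ hγ hγM v hv
    have ue : ∃ y, sf (bv (0, i0) : HH n) y = 1 := (U_bv (Finset.notMem_empty i0)).2
    obtain ⟨g, hg, eg⟩ := trans_uni i0 i1 h01 ue hv
    have hgSp := NS_le_Sp 1 _ hg
    -- the vector
    have hST : ST M ∅ i0 (g⁻¹ (γ (g (bv (0, i0))))) := by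
      refine ⟨fun a ha => absurd ha (Finset.notMem_empty _), ?_, ?_⟩
      · intro a
        obtain ⟨y, hy⟩ : ∃ y : HH n, γ (g (bv (0, i0))) - g (bv (0, i0)) = M • y := by
          choose y hy using hγM (g (bv (0, i0)))
          exact ⟨y, funext fun a => by rw [hy a]; rfl⟩
        have e3 : g⁻¹ (γ (g (bv (0, i0)))) - bv (0, i0) = M • g⁻¹ y := by
          have : g⁻¹ (γ (g (bv (0, i0)))) - bv (0, i0) =
              g⁻¹ (γ (g (bv (0, i0))) - g (bv (0, i0))) := by
            rw [map_sub, inv_app]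
          rw [this, hy, map_smul]
        rw [e3, Pi.smul_apply, smul_eq_mul]
        exact dvd_mul_right _ _
      · obtain ⟨y, hy⟩ := ue
        exact ⟨g⁻¹ (γ (g y)), by
          rw [Subgroup.inv_mem _ hgSp, hγ, hgSp, hy]⟩
    obtain ⟨m, hm, em⟩ := red0 (Finset.notMem_empty i0) hM hST (Finset.notMem_empty i1) h01
    have e4 : γ v = g (m⁻¹ (bv (0, i0))) := by
      rw [← em, inv_app, app_inv, eg]
    have hmSp := NS_le_Sp M _ hm
    have e5 : γ * tv v 1 * γ⁻¹ * (tv v 1)⁻¹ =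
        g * (m⁻¹ * (tv (bv (0, i0)) 1 * m * (tv (bv (0, i0)) 1)⁻¹)) * g⁻¹ := by
      rw [tv_conj hγ, e4, ← eg, ← tv_conj hgSp, ← tv_conj hgSp, ← tv_conj (Subgroup.inv_mem _ hmSp)]
      group
    rw [e5]
    refine NS_norm hg (Subgroup.mul_mem _ (Subgroup.inv_mem _ hm) ?_)
    exact NS_norm (tv_mem (U_bv (Finset.notMem_empty i0)) (one_dvd _)) hm
  -- the set of good elements is a subgroup
  let K : Subgroup (AA n) :=
    { carrier := {h | h ∈ NS 1 (∅ : Finset (Fin n)) ∧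
        γ * h * γ⁻¹ * h⁻¹ ∈ NS M (∅ : Finset (Fin n))}
      mul_mem' := by
        rintro h1 h2 ⟨a1, b1⟩ ⟨a2, b2⟩
        refine ⟨Subgroup.mul_mem _ a1 a2, ?_⟩
        have : γ * (h1 * h2) * γ⁻¹ * (h1 * h2)⁻¹ =
            (γ * h1 * γ⁻¹ * h1⁻¹) * (h1 * (γ * h2 * γ⁻¹ * h2⁻¹) * h1⁻¹) := by group
        rw [this]
        exact Subgroup.mul_mem _ b1 (NS_norm a1 b2)
      one_mem' := ⟨Subgroup.one_mem _, by
        have : γ * 1 * γ⁻¹ * 1⁻¹ = 1 := by group
        rw [this]; exact Subgroup.one_mem _⟩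
      inv_mem' := by
        rintro h ⟨a1, b1⟩
        refine ⟨Subgroup.inv_mem _ a1, ?_⟩
        have : γ * h⁻¹ * γ⁻¹ * h⁻¹⁻¹ = h⁻¹ * (h * (γ * h⁻¹ * γ⁻¹)) * h := by group
        rw [this]
        have h3 : h * (γ * h⁻¹ * γ⁻¹) = (γ * h * γ⁻¹ * h⁻¹)⁻¹ := by group
        rw [h3]
        exact NS_norm' a1 (Subgroup.inv_mem _ b1) }
  have hK : NS 1 (∅ : Finset (Fin n)) ≤ K :=
    NS_le fun v hv => ⟨tv_mem hv dvd_rfl, gen hγ hγM hv.2⟩
  exact (hK hh).2

/-- the matrix modulo `M` -/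
def rd (M : ℕ) (φ : AA n) : (Fin 2 × Fin n) → (Fin 2 × Fin n) → ZMod M :=
  fun a b => (φ (bv a) b : ZMod M)

theorem rd_eq {M : ℕ} {φ ψ : AA n} (h : rd M φ = rd M ψ) (x : HH n) (b : Fin 2 × Fin n) :
    (M : ℤ) ∣ (ψ x - φ x) b := by
  have h1 : ∀ a, (M : ℤ) ∣ (ψ (bv a) - φ (bv a)) b := by
    intro a
    have h2 := congrFun (congrFun h a) b
    unfold rd at h2
    rw [Pi.sub_apply]
    exact (ZMod.intCast_eq_intCast_iff_dvd_sub _ _ _).1 h2
  have hx : x = ∑ a, x a • bv a := by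
    funext b
    rw [Finset.sum_apply, Finset.sum_eq_single b]
    · rw [Pi.smul_apply, bv_same, smul_eq_mul, mul_one]
    · intro a _ hab
      rw [Pi.smul_apply, bv_ne hab.symm, smul_zero]
    · intro h; exact absurd (Finset.mem_univ b) h
  have h3 : ψ x - φ x = ∑ a, x a • (ψ (bv a) - φ (bv a)) := by
    conv_lhs => rw [hx, map_sum, map_sum, ← Finset.sum_sub_distrib]
    refine Finset.sum_congr rfl fun a _ => ?_
    rw [map_smul, map_smul, smul_sub]
  rw [h3, Finset.sum_apply]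
  refine Finset.dvd_sum fun a _ => ?_
  rw [Pi.smul_apply, smul_eq_mul]
  exact (h1 a).mul_left _

/-- the powers of the transvections generate a subgroup of finite index in the group generated by
the transvections -/
theorem fi1 (hn : 3 ≤ n) {M : ℕ} (hM : 0 < M) :
    ((NS (M : ℤ) (∅ : Finset (Fin n))).subgroupOf (NS 1 ∅)).FiniteIndex := by
  have : NeZero M := ⟨hM.ne'⟩
  have hM' : (M : ℤ) ≠ 0 := by exact_mod_cast hM.ne'
  let i0 : Fin n := ⟨0, by omega⟩
  let i1 : Fin n := ⟨1, by omega⟩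
  have n01 : i1 ≠ i0 := by intro h; have := congrArg Fin.val h; simp [i0, i1] at this
  refine schur_index _ _ (fun g hg m hm => NS_norm hg hm) (perfect hn) (rd M) ?_
  intro h hh h' hh' hr k hk
  have hγ : h' * h⁻¹ ∈ NS 1 (∅ : Finset (Fin n)) := Subgroup.mul_mem _ hh' (Subgroup.inv_mem _ hh)
  refine central hM' i0 i1 n01 (NS_le_Sp 1 _ hγ) ?_ hk
  intro x b
  have := rd_eq hr (h⁻¹ x) b
  rw [app_inv] at this
  exact this

/-- THE NORMAL CLOSURE OF A POWER OF A TRANSVECTION HAS FINITE INDEX in the symplectic group -/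
theorem fi (hn : 3 ≤ n) {M : ℕ} (hM : 0 < M) :
    ((NS (M : ℤ) (∅ : Finset (Fin n))).subgroupOf (Sp n)).FiniteIndex := by
  rw [Sp_eq (by omega)]
  exact fi1 hn hM

end Pool.Agent.TOR.FI
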