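import Pool.Agent.Helper59_TOR.Std

/-! TOR, algebraic model: the intersection form, obtained by counting crossings with sign. -/

set_option autoImplicit false

namespace Pool.Agent.TOR.H29

open FreeGroup Pool.Agent.TOR.H59

open Classical in
/-- indicator -/
noncomputable def iI (P : Prop) : ℤ := if P then 1 else 0

theorem iI_true {P : Prop} (h : P) : iI P = 1 := by unfold iI; rw [if_pos h]
theorem iI_false {P : Prop} (h : ¬ P) : iI P = 0 := by unfold iI; rw [if_neg h]
theorem iI_congr {P Q : Prop} (h : P ↔ Q) : iI P = iI Q := by rw [propext h]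
theorem iI_not (P : Prop) : iI (¬ P) = 1 - iI P := by
  by_cases h : P
  · rw [iI_true h, iI_false (not_not_intro h)]; rfl
  · rw [iI_false h, iI_true h]; rfl

/-- sign of the crossing of the chord from `a` to `b` with the chord from `c` to `d` -/
noncomputable def sgl {β : Type*} [LT β] (a b c d : β) : ℤ := iI (Cyc a d b) - iI (Cyc a c b)

section lin
variable {β : Type*} [LinearOrder β]

theorem sgl_add1 {a b c p : β} (hpa : p ≠ a) (hpb : p ≠ b) (hpc : p ≠ c) :
    iI (Cyc a p c) = iI (Cyc a p b) + iI (Cyc b p c) - iI (Cyc a c b ∨ (a = c ∧ a ≠ b)) := by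
  by_cases h1 : Cyc a p c <;> by_cases h2 : Cyc a p b <;> by_cases h3 : Cyc b p c <;>
    by_cases h4 : (Cyc a c b ∨ (a = c ∧ a ≠ b)) <;>
    simp only [iI, h1, h2, h3, h4, if_true, if_false] <;> first | rfl | (exfalso; unfold Cyc at *; grind)

theorem sgl_add {a b c p q : β} (hpa : p ≠ a) (hpb : p ≠ b) (hpc : p ≠ c) (hqa : q ≠ a)
    (hqb : q ≠ b) (hqc : q ≠ c) : sgl a c p q = sgl a b p q + sgl b c p q := by
  unfold sgl
  rw [sgl_add1 hpa hpb hpc, sgl_add1 hqa hqb hqc]
  ring

theorem sgl_swap {a b c d : β} (hac : a ≠ c) (had : a ≠ d) (hbc : b ≠ c) (hbd : b ≠ d) :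
    sgl a b c d = - sgl c d a b := by
  unfold sgl
  by_cases h1 : Cyc a d b <;> by_cases h2 : Cyc a c b <;> by_cases h3 : Cyc c b d <;>
    by_cases h4 : Cyc c a d <;>
    simp only [iI, h1, h2, h3, h4, if_true, if_false] <;> first | rfl | (exfalso; unfold Cyc at *; grind)

theorem sgl_zero {a b c d : β} (hac : a ≠ c) (had : a ≠ d) (hbc : b ≠ c) (hbd : b ≠ d)
    (h : ¬ Lk a b c d) : sgl a b c d = 0 := by
  unfold sgl
  by_cases h1 : Cyc a d b <;> by_cases h2 : Cyc a c b <;>
    simp only [iI, h1, h2, if_true, if_false] <;>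
    first | rfl | (exfalso; unfold Lk Cyc at *; grind)

end lin

variable {α : Type} [DecidableEq α]

/-- sign of the crossing of two chords -/
noncomputable def sg (R : Rib α) (a b c d : Om α) : ℤ :=
  sgl (okey R a) (okey R b) (okey R c) (okey R d)

theorem sg_def (R : Rib α) (a b c d : Om α) : sg R a b c d = iI (co R a d b) - iI (co R a c b) :=
  rfl

theorem sg_mv (R : Rib α) (g : FreeGroup α) (a b c d : Om α) :
    sg R (mv g a) (mv g b) (mv g c) (mv g d) = sg R a b c d := by
  rw [sg_def, sg_def, iI_congr (co_mv R g a d b), iI_congr (co_mv R g a c b)]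

theorem ne_okey {R : Rib α} {i j : ℕ} (h : i ≠ j) (g g' : FreeGroup α) :
    okey R (g, i) ≠ okey R (g', j) := fun h' => h (congrArg Prod.snd (okey_inj R h'))

/-- the intersection number of the arc `k` at the gap `i` with the arc `m` at the gap `j` -/
noncomputable def om (R : Rib α) (i j : ℕ) (k m : FreeGroup α) : ℤ :=
  ∑ᶠ g, sg R (1, i) (k, i) (g, j) (g * m, j)

theorem sg_supp (R : Rib α) (a b : Om α) (j : ℕ) (m : FreeGroup α) :
    (Function.support fun g => sg R a b (g, j) (g * m, j)).Finite := by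
  refine (AI.co R a b j m).subset ?_
  intro g hg h
  apply hg
  show sg R a b (g, j) (g * m, j) = 0
  rw [sg_def]
  have h' : co R a (g, j) b ↔ co R a (g * m, j) b := h
  rw [iI_congr h', sub_self]

/-- reindexing -/
theorem fs_equiv {G : Type*} (e : G ≃ G) (f : G → ℤ) : ∑ᶠ g, f (e g) = ∑ᶠ g, f g :=
  finsum_comp_equiv e

theorem fs_mul_right {G : Type*} [Group G] (f : G → ℤ) (m : G) :
    ∑ᶠ g, f (g * m) = ∑ᶠ g, f g := fs_equiv (Equiv.mulRight m) f

theorem fs_mul_left {G : Type*} [Group G] (f : G → ℤ) (m : G) :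
    ∑ᶠ g, f (m * g) = ∑ᶠ g, f g := fs_equiv (Equiv.mulLeft m) f

theorem om_mul_right (R : Rib α) (i j : ℕ) (k m m' : FreeGroup α) :
    om R i j k (m * m') = om R i j k m + om R i j k m' := by
  unfold om
  rw [← fs_mul_right (fun g => sg R (1, i) (k, i) (g, j) (g * m', j)) m,
    ← finsum_add_distrib (sg_supp R _ _ _ _)]
  · refine finsum_congr fun g => ?_
    rw [sg_def, sg_def, sg_def, mul_assoc]
    ring
  · have := (sg_supp R (1, i) (k, i) j m').preimage (f := fun g => g * m)
      (mul_left_injective m).injOn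
    exact this

/-- the intersection number with a chord -/
theorem fs_chord (R : Rib α) (i j : ℕ) (u k m : FreeGroup α) :
    ∑ᶠ g, sg R (u, i) (u * k, i) (g, j) (g * m, j) = om R i j k m := by
  unfold om
  rw [← fs_mul_left (fun g => sg R (u, i) (u * k, i) (g, j) (g * m, j)) u]
  refine finsum_congr fun g => ?_
  have := sg_mv R u (1, i) (k, i) (g, j) (g * m, j)
  simp only [mv_mk, mul_one, ← mul_assoc] at this
  exact this

theorem om_mul_left (R : Rib α) {i j : ℕ} (hij : i ≠ j) (k k' m : FreeGroup α) :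
    om R i j (k * k') m = om R i j k m + om R i j k' m := by
  rw [← fs_chord R i j k k' m]
  unfold om
  rw [← finsum_add_distrib (sg_supp R _ _ _ _) (sg_supp R _ _ _ _)]
  refine finsum_congr fun g => ?_
  exact sgl_add (ne_okey hij.symm _ _) (ne_okey hij.symm _ _) (ne_okey hij.symm _ _)
    (ne_okey hij.symm _ _) (ne_okey hij.symm _ _) (ne_okey hij.symm _ _)

theorem om_one_right (R : Rib α) (i j : ℕ) (k : FreeGroup α) : om R i j k 1 = 0 := by
  have := om_mul_right R i j k 1 1
  rw [mul_one] at this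
  omega

theorem om_one_left (R : Rib α) {i j : ℕ} (hij : i ≠ j) (m : FreeGroup α) :
    om R i j 1 m = 0 := by
  have := om_mul_left R hij 1 1 m
  rw [mul_one] at this
  omega

theorem om_inv_right (R : Rib α) (i j : ℕ) (k m : FreeGroup α) :
    om R i j k m⁻¹ = - om R i j k m := by
  have := om_mul_right R i j k m m⁻¹
  rw [mul_inv_cancel, om_one_right] at this
  omega

theorem om_inv_left (R : Rib α) {i j : ℕ} (hij : i ≠ j) (k m : FreeGroup α) :
    om R i j k⁻¹ m = - om R i j k m := by
  have := om_mul_left R hij k k⁻¹ m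
  rw [mul_inv_cancel, om_one_left R hij] at this
  omega

/-- exchange of the two arcs -/
theorem om_swap (R : Rib α) {i j : ℕ} (hij : i ≠ j) (k m : FreeGroup α) :
    om R i j k m = - om R j i m k := by
  have h1 : om R j i m k = ∑ᶠ g, sg R (g, j) (g * m, j) (1, i) (k, i) := by
    unfold om
    rw [← fs_equiv (Equiv.inv (FreeGroup α)) (fun g => sg R (g, j) (g * m, j) (1, i) (k, i))]
    refine finsum_congr fun g => ?_
    have := sg_mv R g⁻¹ (1, j) (m, j) (g, i) (g * k, i)
    simp only [mv_mk, mul_one, inv_mul_cancel, inv_mul_cancel_left] at this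
    exact this.symm
  rw [h1, ← finsum_neg_distrib]
  unfold om
  refine finsum_congr fun g => ?_
  exact sgl_swap (ne_okey hij _ _) (ne_okey hij _ _) (ne_okey hij _ _) (ne_okey hij _ _)

/-- invariance under the automorphisms fixing the boundary word -/
theorem om_ap [Finite α] (R : Rib α) {Z : List (α × Bool)} (hZ : Bd R 0 Z)
    (hall : ∀ l, l ∈ Z) (ha : FreeGroup.mk Z ≠ 1) (φ : MulAut (FreeGroup α))
    (hφ : φ (FreeGroup.mk Z) = FreeGroup.mk Z) (i j : ℕ) (k m : FreeGroup α) :
    om R i j (φ k) (φ m) = om R i j k m := by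
  unfold om
  rw [← fs_equiv φ.toEquiv (fun g => sg R (1, i) (φ k, i) (g, j) (g * φ m, j))]
  refine finsum_congr fun g => ?_
  have h1 := co_ap R hZ hall ha φ hφ (1, i) (g, j) (k, i)
  have h2 := co_ap R hZ hall ha φ hφ (1, i) (g * m, j) (k, i)
  simp only [ap_mk, _root_.map_one, _root_.map_mul] at h1 h2
  rw [sg_def, sg_def]
  show iI (co R (1, i) (φ g * φ m, j) (φ k, i)) - iI (co R (1, i) (φ g, j) (φ k, i)) = _
  rw [iI_congr h1, iI_congr h2]

/-- compatible arcs at different gaps -/
theorem om_cmp (R : Rib α) {i j : ℕ} (hij : i ≠ j) {k m : FreeGroup α} (h : Cmp R i k j m) :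
    om R i j k m = 0 := by
  unfold om
  rw [show (fun g => sg R (1, i) (k, i) (g, j) (g * m, j)) = fun _ => (0 : ℤ) from ?_, finsum_zero]
  funext g
  exact sgl_zero (ne_okey hij _ _) (ne_okey hij _ _) (ne_okey hij _ _) (ne_okey hij _ _) (h g)

end Pool.Agent.TOR.H29
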