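import Pool.Agent.Helper29_TOR.If

/-! TOR, algebraic model: the intersection numbers of compatible arcs at one gap in terms of the
germs; the letters are pairwise compatible. -/

set_option autoImplicit false

namespace Pool.Agent.TOR.H29

open FreeGroup Pool.Agent.TOR.H59

variable {α : Type} [DecidableEq α]

theorem co_ne (R : Rib α) {i j : ℕ} {p q r : FreeGroup α} (h1 : q ≠ p) (h2 : q ≠ r)
    (h3 : p ≠ r) : co R (p, i) (q, j) (r, i) ↔ cy R p q r := by
  rw [co_iff]
  have e1 : ¬ p = q := fun h => h1 h.symm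
  have e3 : ¬ r = p := fun h => h3 h.symm
  simp only [e1, h2, e3, false_and, or_false]

theorem co_first (R : Rib α) {i j : ℕ} (hij : j < i) {k : FreeGroup α} (hk : k ≠ 1) :
    co R (1, i) (1, j) (k, i) := by
  rw [co_iff]
  exact Or.inr (Or.inl ⟨rfl, hk.symm, hij⟩)

theorem not_co_last (R : Rib α) {i j : ℕ} (hij : j < i) {k : FreeGroup α} (hk : k ≠ 1) :
    ¬ co R (1, i) (k, j) (k, i) := by
  rw [co_iff]
  rintro (h | h | h | h | h)
  · exact h.ne23 rfl
  · exact hk h.1.symm
  · exact lt_asymm h.2.2 hij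
  · exact hk h.1
  · exact hk h.1.symm

/-- comparison at the other end of the chord -/
theorem co_end (R : Rib α) {i j : ℕ} {k u : FreeGroup α} (hk : k ≠ 1) (hu : u ≠ 1)
    (h : u ≠ k⁻¹) : co R (1, i) (k * u, j) (k, i) ↔ key R k⁻¹ < key R u := by
  have hk' : k⁻¹ ≠ 1 := by simpa using hk
  have h1 := co_mv R k (k⁻¹, i) (u, j) (1, i)
  simp only [mv_mk, mul_inv_cancel, mul_one] at h1
  rw [h1, co_ne R h hu hk']
  have h2 : cy R k⁻¹ u 1 ↔ cy R 1 k⁻¹ u := by rw [cy_rot, cy_rot]
  rw [h2, cy_one R hk' hu]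

theorem co_start (R : Rib α) {i j : ℕ} {k u : FreeGroup α} (hk : k ≠ 1) (hu : u ≠ 1)
    (h : u ≠ k) : co R (1, i) (u, j) (k, i) ↔ key R u < key R k := by
  rw [co_ne R hu h hk.symm, cy_one R hu hk]

theorem iI_lt_swap (R : Rib α) {u k : FreeGroup α} (h : u ≠ k) :
    iI (key R u < key R k) = 1 - iI (key R k < key R u) := by
  rw [← iI_not, iI_congr]
  rw [not_lt]
  constructor
  · exact fun h' => h'.le
  · exact fun h' => lt_of_le_of_ne h' fun h'' => h (key_inj R h'')

/-- the term of an element which gives four different points -/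
theorem sg_other (R : Rib α) (i j : ℕ) {k m g : FreeGroup α} (hk : k ≠ 1) (hc : Cmp R 0 k 0 m)
    (h1 : g ≠ 1) (h2 : g ≠ k) (h3 : g * m ≠ 1) (h4 : g * m ≠ k) :
    sg R (1, i) (k, i) (g, j) (g * m, j) = 0 := by
  have hg := hc g
  have e1 := lk_iff (a := okey R ((1 : FreeGroup α), 0)) (b := okey R (k, 0))
    (c := okey R (g, 0)) (d := okey R (g * m, 0))
    (fun h => h1 (congrArg Prod.fst (okey_inj R h)))
    (fun h => h2 (congrArg Prod.fst (okey_inj R h)))
    (fun h => h3 (congrArg Prod.fst (okey_inj R h)))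
    (fun h => h4 (congrArg Prod.fst (okey_inj R h)))
    (fun h => hk (congrArg Prod.fst (okey_inj R h)).symm)
  have e2 : ¬ Lk (okey R ((1 : FreeGroup α), 0)) (okey R (k, 0)) (okey R (g, 0))
    (okey R (g * m, 0)) := hg
  rw [e1, not_not] at e2
  have e3 : co R (1, 0) (g, 0) (k, 0) ↔ co R (1, 0) (g * m, 0) (k, 0) := e2
  rw [co_start R hk h1 h2, co_start R hk h3 h4] at e3
  rw [sg_def, iI_congr (co_start R hk h3 h4), iI_congr (co_start R hk h1 h2), iI_congr e3, sub_self]

/-- the intersection number of two compatible arcs in terms of the germs -/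
theorem om_germ1 (R : Rib α) {i j : ℕ} (hij : j < i) {k m : FreeGroup α} (hk : k ≠ 1) (hm : m ≠ 1)
    (hkm : k ≠ m) (hkm' : k ≠ m⁻¹) (hc : Cmp R 0 k 0 m) :
    om R i j k m = iI (key R k⁻¹ < key R m) + iI (key R k < key R m⁻¹) -
      iI (key R k < key R m) - iI (key R k⁻¹ < key R m⁻¹) := by
  have hm' : m⁻¹ ≠ 1 := by simpa using hm
  have hk' : k⁻¹ ≠ 1 := by simpa using hk
  have hmk : m ≠ k⁻¹ := by
    rintro rfl; exact hkm' (inv_inv k).symm
  have hmk' : m⁻¹ ≠ k⁻¹ := by
    intro h; exact hkm (inv_injective h).symm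
  have a1 : (1 : FreeGroup α) ≠ k * m⁻¹ := by
    intro h; exact hkm (by rw [← div_eq_mul_inv, eq_comm, div_eq_one] at h; exact h)
  have a2 : k ≠ k * m⁻¹ := by
    intro h; apply hm'; simpa using h.symm
  have a3 : m⁻¹ ≠ k * m⁻¹ := by
    intro h; apply hk; simpa using h.symm
  unfold om
  rw [finsum_eq_sum_of_support_subset (s := {1, k, m⁻¹, k * m⁻¹})]
  · rw [Finset.sum_insert, Finset.sum_insert, Finset.sum_insert, Finset.sum_singleton]
    · have t1 : sg R (1, i) (k, i) (1, j) (1 * m, j) = - iI (key R k < key R m) := by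
        rw [one_mul, sg_def, iI_true (co_first R hij hk), iI_congr (co_start R hk hm hkm.symm),
          iI_lt_swap R hkm.symm]
        ring
      have t2 : sg R (1, i) (k, i) (k, j) (k * m, j) = iI (key R k⁻¹ < key R m) := by
        rw [sg_def, iI_false (not_co_last R hij hk), iI_congr (co_end R hk hm hmk)]
        ring
      have t3 : sg R (1, i) (k, i) (m⁻¹, j) (m⁻¹ * m, j) = iI (key R k < key R m⁻¹) := by
        rw [inv_mul_cancel, sg_def, iI_true (co_first R hij hk),
          iI_congr (co_start R hk hm' hkm'.symm), iI_lt_swap R hkm'.symm]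
        ring
      have t4 : sg R (1, i) (k, i) (k * m⁻¹, j) (k * m⁻¹ * m, j) =
          - iI (key R k⁻¹ < key R m⁻¹) := by
        rw [inv_mul_cancel_right, sg_def, iI_false (not_co_last R hij hk),
          iI_congr (co_end R hk hm' hmk')]
        ring
      rw [t1, t2, t3, t4]
      ring
    · simpa using a3
    · simp only [Finset.mem_insert, Finset.mem_singleton, not_or]
      exact ⟨hkm', a2⟩
    · simp only [Finset.mem_insert, Finset.mem_singleton, not_or]
      exact ⟨hk.symm, hm'.symm, a1⟩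
  · intro g hg
    simp only [Finset.coe_insert, Finset.coe_singleton, Set.mem_insert_iff,
      Set.mem_singleton_iff]
    by_contra hcon
    push Not at hcon
    obtain ⟨b1, b2, b3, b4⟩ := hcon
    apply hg
    refine sg_other R i j hk hc b1 b2 ?_ ?_
    · intro h; exact b3 (eq_inv_of_mul_eq_one_left h)
    · intro h; exact b4 (eq_mul_inv_of_mul_eq h)

theorem om_germ (R : Rib α) {i j : ℕ} (hij : i ≠ j) {k m : FreeGroup α} (hk : k ≠ 1) (hm : m ≠ 1)
    (hkm : k ≠ m) (hkm' : k ≠ m⁻¹) (hc : Cmp R 0 k 0 m) :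
    om R i j k m = iI (key R k⁻¹ < key R m) + iI (key R k < key R m⁻¹) -
      iI (key R k < key R m) - iI (key R k⁻¹ < key R m⁻¹) := by
  rcases lt_or_gt_of_ne hij with h | h
  · have hmk' : m ≠ k⁻¹ := by
      rintro rfl; exact hkm' (inv_inv k).symm
    have h3 : m⁻¹ ≠ k⁻¹ := fun h => hkm (inv_injective h).symm
    rw [om_swap R hij, om_germ1 R h hm hk hkm.symm hmk' hc.symm, iI_lt_swap R hkm'.symm,
      iI_lt_swap R hmk', iI_lt_swap R hkm.symm, iI_lt_swap R h3]
    ring
  · exact om_germ1 R h hk hm hkm hkm' hc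

/-- the self-intersection number of an arc is zero -/
theorem om_self (R : Rib α) {i j : ℕ} (hij : j < i) {k : FreeGroup α} (hc : Cmp R 0 k 0 k) :
    om R i j k k = 0 := by
  by_cases hk : k = 1
  · subst hk; exact om_one_right R i j 1
  have hk' : k⁻¹ ≠ 1 := by simpa using hk
  have hkk : k⁻¹ ≠ k := by
    intro h
    have h1 : k ^ 2 = 1 := by rw [pow_two]; nth_rw 1 [← h]; exact inv_mul_cancel k
    exact hk (by simpa using h1)
  unfold om
  rw [finsum_eq_sum_of_support_subset (s := {1, k, k⁻¹})]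
  · rw [Finset.sum_insert, Finset.sum_insert, Finset.sum_singleton]
    · have t1 : sg R (1, i) (k, i) (1, j) (1 * k, j) = - 1 := by
        rw [one_mul, sg_def, iI_true (co_first R hij hk), iI_false (not_co_last R hij hk)]
        rfl
      have t2 : sg R (1, i) (k, i) (k, j) (k * k, j) = iI (key R k⁻¹ < key R k) := by
        rw [sg_def, iI_false (not_co_last R hij hk), iI_congr (co_end R hk hk hkk.symm)]
        ring
      have t3 : sg R (1, i) (k, i) (k⁻¹, j) (k⁻¹ * k, j) = iI (key R k < key R k⁻¹) := by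
        rw [inv_mul_cancel, sg_def, iI_true (co_first R hij hk),
          iI_congr (co_start R hk hk' hkk), iI_lt_swap R hkk]
        ring
      rw [t1, t2, t3, iI_lt_swap R hkk]
      ring
    · simpa using hkk.symm
    · simp only [Finset.mem_insert, Finset.mem_singleton, not_or]
      exact ⟨fun h => hk h.symm, hk'.symm⟩
  · intro g hg
    simp only [Finset.coe_insert, Finset.coe_singleton, Set.mem_insert_iff,
      Set.mem_singleton_iff]
    by_contra hcon
    push Not at hcon
    obtain ⟨b1, b2, b3⟩ := hcon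
    apply hg
    refine sg_other R i j hk hc b1 b2 ?_ ?_
    · intro h; exact b3 (eq_inv_of_mul_eq_one_left h)
    · intro h
      exact b1 (by simpa using h)

/-! ### the letters -/

theorem lt_ne_one (l : α × Bool) : lt l ≠ 1 := by
  intro h
  have h1 : (lt l).toWord = [] := by rw [h, FreeGroup.toWord_one]
  rw [lt, FreeGroup.toWord_mk, FreeGroup.IsReduced.singleton.reduce_eq] at h1
  simp at h1

theorem word_lt (l : α × Bool) : (lt l).toWord = [l] := by
  rw [lt, FreeGroup.toWord_mk, FreeGroup.IsReduced.singleton.reduce_eq]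

theorem key_lt_lt (R : Rib α) (l l' : α × Bool) : key R (lt l) < key R (lt l') ↔ R.r l < R.r l' := by
  unfold key
  rw [word_lt, word_lt]
  simp only [kf, rel_zero, List.cons_lt_cons_iff]
  constructor
  · rintro (h | ⟨h, h2⟩)
    · exact h
    · have := R.inj h
      subst this
      rcases h2 with h2 | h2
      · exact absurd h2 (lt_irrefl _)
      · exact absurd h2.2 (lt_irrefl _)
  · exact Or.inl

/-- two letters are compatible -/
theorem cmp_lt (R : Rib α) (l l' : α × Bool) : Cmp R 0 (lt l) 0 (lt l') := by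
  intro g hg
  have pre : ∀ {w : List (α × Bool)}, w <+: [l] → w = [] ∨ w = [l] := by
    intro w hw
    cases w with
    | nil => exact Or.inl rfl
    | cons a w =>
      rw [List.cons_prefix_cons] at hw
      obtain ⟨rfl, h⟩ := hw
      rw [List.prefix_nil] at h
      subst h
      exact Or.inr rfl
  have np : ∀ {u : FreeGroup α}, u ≠ 1 → u ≠ lt l → ¬ u.toWord <+: [l] := by
    intro u h1 h2 h3
    rcases pre h3 with h | h
    · exact h1 (by rwa [FreeGroup.toWord_eq_nil_iff] at h)
    · exact h2 (FreeGroup.toWord_injective (by rw [h, word_lt]))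
  have e : ∀ {u : FreeGroup α}, u ≠ 1 → u ≠ lt l → u * lt l' ≠ 1 → u * lt l' ≠ lt l →
      (key R u < key R (lt l) ↔ key R (u * lt l') < key R (lt l)) := by
    intro u h1 h2 h3 h4
    unfold key
    rw [word_lt]
    rcases word_mul_lt u l' with h | h
    · rw [h]
      exact (kf_lt_append R [l'] _ _ 0 (Nat.zero_le _) (np h1 h2)).1.symm
    · rw [h]
      exact (kf_lt_append R [iv l'] _ _ 0 (Nat.zero_le _) (np h3 h4)).1
  have hl := lt_ne_one l
  -- different points
  have hd : g ≠ 1 ∧ g ≠ lt l ∧ g * lt l' ≠ 1 ∧ g * lt l' ≠ lt l := by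
    refine ⟨?_, ?_, ?_, ?_⟩ <;> intro h <;> rw [h] at hg
    · exact not_lk_self _ _ _ hg
    · rw [lo_swap] at hg; exact not_lk_self _ _ _ hg
    · rw [lo_swap'] at hg; exact not_lk_self _ _ _ hg
    · rw [lo_swap, lo_swap'] at hg; exact not_lk_self _ _ _ hg
  obtain ⟨h1, h2, h3, h4⟩ := hd
  have e1 := e h1 h2 h3 h4
  rw [← co_start R (i := 0) (j := 0) hl h1 h2, ← co_start R (i := 0) (j := 0) hl h3 h4] at e1
  rcases hg with ⟨h5, h6⟩ | ⟨h5, h6⟩
  · exact Cyc.asymm (e1.1 h5) h6.rot.rot
  · exact Cyc.asymm (e1.2 h5) h6.rot.rot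

/-- intersection numbers of different letters -/
theorem om_lt (R : Rib α) {i j : ℕ} (hij : i ≠ j) {a b : α} (hab : a ≠ b) :
    om R i j (FreeGroup.of a) (FreeGroup.of b) =
      iI (R.r (a, false) < R.r (b, true)) + iI (R.r (a, true) < R.r (b, false)) -
      iI (R.r (a, true) < R.r (b, true)) - iI (R.r (a, false) < R.r (b, false)) := by
  have ea : FreeGroup.of a = lt (a, true) := rfl
  have eb : FreeGroup.of b = lt (b, true) := rfl
  have ea' : (lt (a, true))⁻¹ = lt (a, false) := (lt_iv (a, true)).symm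
  have eb' : (lt (b, true))⁻¹ = lt (b, false) := (lt_iv (b, true)).symm
  have inj : ∀ {l l' : α × Bool}, lt l = lt l' → l = l' := by
    intro l l' h
    have := congrArg FreeGroup.toWord h
    rw [word_lt, word_lt] at this
    simpa using this
  rw [ea, eb, om_germ R hij (lt_ne_one _) (lt_ne_one _) ?_ ?_ (cmp_lt R _ _), ea', eb']
  · simp only [iI_congr (key_lt_lt R _ _)]
  · intro h; exact hab (congrArg Prod.fst (inj h))
  · rw [eb']; intro h; exact hab (congrArg Prod.fst (inj h))

theorem om_lt_self (R : Rib α) {i j : ℕ} (hij : i ≠ j) (a : α) :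
    om R i j (FreeGroup.of a) (FreeGroup.of a) = 0 := by
  have hc : Cmp R 0 (FreeGroup.of a) 0 (FreeGroup.of a) := cmp_lt R (a, true) (a, true)
  rcases lt_or_gt_of_ne hij with h | h
  · rw [om_swap R hij, om_self R h hc, neg_zero]
  · exact om_self R h hc

end Pool.Agent.TOR.H29
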