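import Pool.Agent.Helper59_TOR.Std

/-! TOR, algebraic model: the pentagon of a handle; the boundary arc of a handle. -/

set_option autoImplicit false

namespace Pool.Agent.TOR.H29

open FreeGroup Pool.Agent.TOR.H59

variable {α : Type} [DecidableEq α]

theorem lo_same (R : Rib α) (i : ℕ) (p q r s : FreeGroup α) :
    Lo R (p, i) (q, i) (r, i) (s, i) ↔ Lk (key R p) (key R q) (key R r) (key R s) := by
  rw [lo_def, co_same, co_same, co_same, co_same]
  rfl

theorem key_ne {R : Rib α} {p q : FreeGroup α} (h : p ≠ q) : key R p ≠ key R q :=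
  fun h' => h (key_inj R h')

theorem key_lt_iff_cy {R : Rib α} {p q : FreeGroup α} (hp : p ≠ 1) (hq : q ≠ 1) :
    key R p < key R q ↔ Cyc (key R 1) (key R p) (key R q) := (cy_one R hp hq).symm

theorem tr {R : Rib α} (g p q r : FreeGroup α) :
    Cyc (key R (g * p)) (key R (g * q)) (key R (g * r)) ↔ Cyc (key R p) (key R q) (key R r) :=
  cy_mul R g p q r

/-- compatible arcs at one gap do not cross -/
theorem ncr {R : Rib α} {k m : FreeGroup α} (h : Cmp R 0 k 0 m) (g u : FreeGroup α) :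
    ¬ Lk (key R g) (key R (g * k)) (key R u) (key R (u * m)) := by
  have := h.all g u
  rwa [lo_same] at this

theorem cmp_of_ncr {R : Rib α} {k m : FreeGroup α}
    (h : ∀ g, ¬ Lk (key R 1) (key R k) (key R g) (key R (g * m))) : Cmp R 0 k 0 m := by
  intro g hg
  rw [lo_same] at hg
  exact h g hg

/-- the germs of the pentagon of a handle, in linear order -/
structure PO (R : Rib α) (k l : FreeGroup α) : Prop where
  o0 : key R 1 < key R (k * l * k⁻¹ * l⁻¹)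
  o1 : key R (k * l * k⁻¹ * l⁻¹) < key R (k * l * k⁻¹)
  o2 : key R (k * l * k⁻¹) < key R (k * l)
  o3 : key R (k * l) < key R k
  o4 : key R k < key R (k * l⁻¹)
  o5 : key R (k * l⁻¹) < key R (k * l⁻¹ * k⁻¹)
  o6 : key R (k * l⁻¹ * k⁻¹) < key R l⁻¹
  o7 : key R l⁻¹ < key R (l⁻¹ * k⁻¹)
  o8 : key R (l⁻¹ * k⁻¹) < key R (k⁻¹ * l⁻¹)
  o9 : key R (k⁻¹ * l⁻¹) < key R k⁻¹
  o10 : key R k⁻¹ < key R (l * k⁻¹ * l⁻¹)
  o11 : key R (l * k⁻¹ * l⁻¹) < key R (l * k⁻¹)
  o12 : key R (l * k⁻¹) < key R l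
  o13 : key R l < key R (l * k)
  o14 : key R (l * k) < key R (l * k * l⁻¹)
  o15 : key R (l * k * l⁻¹) < key R (l * k * l⁻¹ * k⁻¹)

theorem pent {R : Rib α} {k l : FreeGroup α} (h : Hnd R k l) : PO R k l := by
  obtain ⟨hk, hl, hc, h1, h2, h3⟩ := h
  have hk1 : k ≠ 1 := hk.1
  have hl1 : l ≠ 1 := fun e => hl.1 (by rw [e, inv_one])
  have hk1' : k⁻¹ ≠ 1 := by simpa using hk1
  have hl1' : l⁻¹ ≠ 1 := by simpa using hl1
  have hkl : k ≠ l := by rintro rfl; exact lt_irrefl _ (h1.trans (h2.trans h3))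
  have hkl' : k ≠ l⁻¹ := by rintro rfl; exact lt_irrefl _ h1
  have hkl2 : k⁻¹ ≠ l := by rintro rfl; exact lt_irrefl _ h3
  have hkk : Cmp R 0 k 0 k := hk.2.2
  have hll : Cmp R 0 l 0 l := by
    have := hl.2.2
    rwa [cmp_inv_left, cmp_inv_right] at this
  have z : ∀ {g : FreeGroup α}, g ≠ 1 → key R 1 < key R g := fun hg => key_one_lt R hg
  have n1 : l * k ≠ 1 := by
    intro e; exact hkl' (eq_inv_of_mul_eq_one_right e)
  have n2 : l * k * l⁻¹ ≠ 1 := by
    intro e; rw [mul_inv_eq_one, mul_eq_left] at e; exact hk1 e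
  -- the first three triangles
  have A1 : Cyc (key R 1) (key R l) (key R (l * k)) := by
    have := (tr (R := R) l l⁻¹ 1 k).2 ?_
    · simpa using this
    · have := (key_lt_iff_cy (R := R) hk1 hl1').1 h1
      exact this.rot.rot
  have A2 : Cyc (key R l) (key R (l * k)) (key R (l * k * l⁻¹)) := by
    have := (tr (R := R) (l * k) k⁻¹ 1 l⁻¹).2 ?_
    · simpa using this
    · have := (key_lt_iff_cy (R := R) hl1' hk1').1 h2
      exact this.rot.rot
  have A3 : Cyc (key R (l * k)) (key R (l * k * l⁻¹)) (key R (l * k * l⁻¹ * k⁻¹)) := by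
    have := (tr (R := R) (l * k * l⁻¹) l 1 k⁻¹).2 ?_
    · simpa using this
    · have := (key_lt_iff_cy (R := R) hk1' hl1).1 h3
      exact this.rot.rot
  have N1 := ncr hll 1 (l * k * l⁻¹)
  have N2 := ncr hc (l * k * l⁻¹ * k⁻¹) 1
  have N3 := ncr hkk l (l * k * l⁻¹ * k⁻¹)
  simp only [one_mul, inv_mul_cancel_right] at N1 N2 N3
  have B1 : key R l < key R (l * k) := (key_lt_iff_cy hl1 n1).2 A1
  have z1 := z hl1
  have z2 := z n1
  have z3 := z n2
  have d1 : key R (l * k * l⁻¹) ≠ key R l := key_ne (by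
    intro e; rw [mul_inv_eq_iff_eq_mul, mul_right_inj] at e; exact hkl e)
  have B2 : key R (l * k) < key R (l * k * l⁻¹) := by
    unfold Lk Cyc at *
    grind
  -- not commuting
  have n3 : l * k * l⁻¹ * k⁻¹ ≠ 1 := by
    intro e
    rw [mul_inv_eq_one] at e
    rw [e] at B2
    exact lt_irrefl _ (B1.trans (B2.trans (h1.trans (h2.trans h3))))
  have z4 := z n3
  have d2 : key R (l * k * l⁻¹ * k⁻¹) ≠ key R l := key_ne (by
    intro e
    rw [mul_assoc, mul_assoc, mul_eq_left, ← mul_assoc, mul_inv_eq_one, mul_eq_left] at e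
    exact hl1' e)
  have d3 : key R (l * k * l⁻¹ * k⁻¹) ≠ key R (l * k) := key_ne (by
    intro e
    rw [mul_assoc (l * k), mul_eq_left, mul_eq_one_iff_eq_inv, inv_inv] at e
    exact hkl' e.symm)
  have B3 : key R (l * k * l⁻¹) < key R (l * k * l⁻¹ * k⁻¹) := by
    unfold Lk Cyc at *
    grind
  -- the translates
  have c1 : Cyc (key R 1) (key R l) (key R (l * k * l⁻¹)) := Or.inl ⟨z1, B1.trans B2⟩
  have c2 : Cyc (key R 1) (key R l) (key R (l * k * l⁻¹ * k⁻¹)) :=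
    Or.inl ⟨z1, B1.trans (B2.trans B3)⟩
  have c3 : Cyc (key R 1) (key R (l * k)) (key R (l * k * l⁻¹)) := Or.inl ⟨z2, B2⟩
  have c4 : Cyc (key R 1) (key R (l * k)) (key R (l * k * l⁻¹ * k⁻¹)) :=
    Or.inl ⟨z2, B2.trans B3⟩
  have c5 : Cyc (key R 1) (key R (l * k * l⁻¹)) (key R (l * k * l⁻¹ * k⁻¹)) := Or.inl ⟨z3, B3⟩
  have c6 : Cyc (key R l) (key R (l * k)) (key R (l * k * l⁻¹ * k⁻¹)) :=
    Or.inl ⟨B1, B2.trans B3⟩
  have c7 : Cyc (key R l) (key R (l * k * l⁻¹)) (key R (l * k * l⁻¹ * k⁻¹)) :=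
    Or.inl ⟨B1.trans B2, B3⟩
  have c8 : Cyc (key R (l * k)) (key R (l * k * l⁻¹)) (key R (l * k * l⁻¹ * k⁻¹)) :=
    Or.inl ⟨B2, B3⟩
  -- use: Cyc (key v) (key p) (key q) gives key (v⁻¹ p) < key (v⁻¹ q)
  have use : ∀ (v p q : FreeGroup α), Cyc (key R v) (key R p) (key R q) →
      key R (v⁻¹ * p) < key R (v⁻¹ * q) := by
    intro v p q hh
    have e := (tr (R := R) v⁻¹ v p q).2 hh
    rw [inv_mul_cancel] at e
    have e1 : v⁻¹ * p ≠ 1 := by
      intro e2; rw [e2] at e; exact e.ne12 rfl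
    have e3 : v⁻¹ * q ≠ 1 := by
      intro e2; rw [e2] at e; exact e.ne31 rfl
    exact (key_lt_iff_cy e1 e3).2 e
  have t4 := use l (l * k) (l * k * l⁻¹) A2
  have t5 := use l (l * k * l⁻¹) (l * k * l⁻¹ * k⁻¹) c7
  have t6 := use l (l * k * l⁻¹ * k⁻¹) 1 c2.rot
  have t7 := use (l * k) (l * k * l⁻¹) (l * k * l⁻¹ * k⁻¹) c8
  have t8 := use (l * k) (l * k * l⁻¹ * k⁻¹) 1 c4.rot
  have t9 := use (l * k) 1 l A1.rot.rot
  have t10 := use (l * k * l⁻¹) (l * k * l⁻¹ * k⁻¹) 1 c5.rot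
  have t11 := use (l * k * l⁻¹) 1 l c1.rot.rot
  have t12 := use (l * k * l⁻¹) l (l * k) A2.rot.rot
  have t1 := use (l * k * l⁻¹ * k⁻¹) 1 l c2.rot.rot
  have t2 := use (l * k * l⁻¹ * k⁻¹) l (l * k) c6.rot.rot
  have t3 := use (l * k * l⁻¹ * k⁻¹) (l * k) (l * k * l⁻¹) c8.rot.rot
  have n4 : k * l * k⁻¹ * l⁻¹ ≠ 1 := by
    intro e; apply n3
    have : (k * l * k⁻¹ * l⁻¹)⁻¹ = l * k * l⁻¹ * k⁻¹ := by group
    rw [← this, e, inv_one]
  refine ⟨z n4, ?_, ?_, ?_, ?_, ?_, ?_, ?_, ?_, ?_, ?_, ?_, ?_, B1, B2, B3⟩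
  · convert t1 using 2 <;> group
  · convert t2 using 2 <;> group
  · convert t3 using 2 <;> group
  · convert t4 using 2 <;> group
  · convert t5 using 2 <;> group
  · convert t6 using 2 <;> group
  · convert t7 using 2 <;> group
  · convert t8 using 2 <;> group
  · convert t9 using 2 <;> group
  · convert t10 using 2 <;> group
  · convert t11 using 2 <;> group
  · convert t12 using 2 <;> group

end Pool.Agent.TOR.H29
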